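import Pool.Agent.Helper93.KP.St

set_option autoImplicit false

namespace Pool.Agent.Helper93.KP

open Finset

private theorem key (n p r s : ℕ) (hp : p.Prime) (hr : r < p) (hs : s < p) (hne : r ≠ s)
    (h1 : (p : ℤ) ∣ gk n (30 * r)) (h2 : (p : ℤ) ∣ gk n (30 * s)) :
    (p : ℤ) ∣ 30 * (n : ℤ) - 900 * ((r : ℤ) + s) := by
  have h3 : (p : ℤ) ∣ ((r : ℤ) - s) * (30 * (n : ℤ) - 900 * ((r : ℤ) + s)) := by
    have h4 := dvd_sub h1 h2
    have h5 : gk n (30 * r) - gk n (30 * s) =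
        ((r : ℤ) - s) * (30 * (n : ℤ) - 900 * ((r : ℤ) + s)) := by
      unfold gk
      push_cast
      ring
    rwa [h5] at h4
  rcases (Int.Prime.dvd_mul' hp h3) with h6 | h6
  · exfalso
    apply hne
    have h7 : ((r : ℤ) - s) = 0 := by
      apply Int.eq_zero_of_abs_lt_dvd h6
      rw [abs_lt]
      constructor <;> omega
    omega
  · exact h6

theorem hRTS : StRTS := by
  intro n p hp h7
  unfold rn
  by_contra hc
  rw [not_le, two_lt_card_iff] at hc
  obtain ⟨r, s, t, hr, hs, ht, hrs, hrt, hst⟩ := hc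
  rw [mem_filter, mem_range] at hr hs ht
  have e1 := key n p r s hp hr.1 hs.1 hrs hr.2 hs.2
  have e2 := key n p r t hp hr.1 ht.1 hrt hr.2 ht.2
  have e3 : (p : ℤ) ∣ 900 * ((s : ℤ) - t) := by
    have := dvd_sub e2 e1
    have e4 : 30 * (n : ℤ) - 900 * ((r : ℤ) + t) - (30 * (n : ℤ) - 900 * ((r : ℤ) + s)) =
        900 * ((s : ℤ) - t) := by ring
    rwa [e4] at this
  rcases (Int.Prime.dvd_mul' hp e3) with h6 | h6
  · have h8 : p ∣ 900 := by exact_mod_cast h6
    have h9 : p ∣ 2 ^ 2 * (3 ^ 2 * 5 ^ 2) := by norm_num; exact h8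
    rcases hp.dvd_mul.1 h9 with h | h
    · have := Nat.le_of_dvd (by norm_num) (hp.dvd_of_dvd_pow h); omega
    · rcases hp.dvd_mul.1 h with h | h
      · have := Nat.le_of_dvd (by norm_num) (hp.dvd_of_dvd_pow h); omega
      · have := Nat.le_of_dvd (by norm_num) (hp.dvd_of_dvd_pow h); omega
  · apply hst
    have h10 : ((s : ℤ) - t) = 0 := by
      apply Int.eq_zero_of_abs_lt_dvd h6
      rw [abs_lt]
      have := hs.1
      have := ht.1
      constructor <;> omega
    omega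

end Pool.Agent.Helper93.KP
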