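import Pool.Agent.Helper93.KP.Fin
import Pool.Agent.Helper9.TW.All
import Pool.Agent.Helper15.FC.Weil
import Pool.Agent.Helper38.KP.M_WEI
import Pool.Agent.Helper9.KP.M_INS
import Pool.Agent.Helper97.KP.M_CNT
import Pool.Agent.Helper85.KP.M_DIA
import Pool.Agent.Helper40.KP.M_PHA
import Pool.Agent.Helper69.KP.M_BIV
import Pool.Agent.Helper35.KP.M_FRQ
import Pool.Agent.Helper73.KP.M_BXV
import Pool.Agent.Helper36.KP.M_EDV
import Pool.Agent.Helper94.KP.M_BLA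
import Pool.Agent.Helper79.KP.M_BLE
import Pool.Agent.Helper79.KP.M_BLV
import Pool.Agent.Helper41.KP.M_PTB
import Pool.Agent.Helper32.KP.M_SGL
import Pool.Agent.Helper47.KP.M_CLS
import Pool.Agent.Helper80.KP.M_RST
import Pool.Agent.Helper72.KP.M_BAD
import Pool.Agent.Helper89.KP.M_MUD
import Pool.Agent.Helper61.KP.M_EXP
import Pool.Agent.Helper11.KP.M_GBD
import Pool.Agent.Helper4.KP.M_OFA
import Pool.Agent.Helper86.KP.M_OFF
import Pool.Agent.Helper77.KP.M_VAR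
import Pool.Agent.Helper68.KP.M_SQX
import Pool.Agent.Helper90.KP.M_EXC
import Pool.Agent.Helper93.KP.M_RTS
import Pool.Agent.Helper1.KP.M_LOC
import Pool.Agent.Helper39.KP.M_C8P
import Pool.Agent.Helper81.KP.M_VLP
import Pool.Agent.Helper13.KP.M_D5P
import Pool.Agent.Helper66.KP.M_D6P
import Pool.Agent.Helper22.KP.M_FSP
import Pool.Agent.Helper83.KP.M_PTP
import Pool.Agent.Helper8.KP.M_CAP
import Pool.Agent.Helper29.KP.M_C10P
import Pool.Agent.Helper88.KP.M_FNA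
import Pool.Agent.Helper85.KP.M_FNP

/-!
# Project KP: assembly
-/

set_option autoImplicit false

noncomputable section

namespace Pool.Agent.Helper93.KP

open Pool.Agent

theorem pWEI : StWEI := Helper38.KP.hWEI Helper15.FC.wWKL

theorem pINS : StINS := Helper9.KP.hINS pWEI Helper15.AB.hDB

theorem pBIV : StBIV := Helper69.KP.hBIV Helper40.KP.hPHA pINS Helper97.KP.hCNT Helper85.KP.hDIA Helper15.AB.hDB

theorem pBXV : StBXV := Helper73.KP.hBXV (Helper35.KP.hFRQ Helper30.TW.hFOU) pBIV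

theorem pBLV : StBLV := Helper79.KP.hBLV (Helper94.KP.hBLA Helper36.KP.hEDV pBXV) (Helper79.KP.hBLE Helper15.AB.hDB)

theorem pEXP : StEXP := Helper61.KP.hEXP pBLV Helper32.KP.hSGL

theorem pPTB : StPTB := Helper41.KP.hPTB Helper15.AB.hDB

theorem pBAD : StBAD := Helper72.KP.hBAD Helper15.AB.hDB

theorem pGBD : StGBD := Helper11.KP.hGBD Helper15.AB.hMT

theorem pOFA : StOFA := Helper4.KP.hOFA pEXP Helper47.KP.hCLS Helper32.KP.hSGL Helper18.TR.pf_Level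

theorem pOFF : StOFF := Helper86.KP.hOFF pOFA Helper80.KP.hRST pPTB pBAD Helper89.KP.hMUD pGBD

theorem pVAR : StVAR := Helper77.KP.hVAR pOFF pPTB Helper89.KP.hMUD

theorem pEXC : StEXC := Helper90.KP.hEXC pVAR (Helper68.KP.hSQX pBAD) pPTB Helper82.TW.hC5 Helper74.TW.hC6

theorem pCAP : StCAP := Helper8.KP.hCAP pEXC Helper8.TW.hWFJ Helper9.TW.pMSB Helper9.TW.pINQ

theorem pD5P : StD5P := Helper13.KP.hD5P Helper9.TW.hD1 Helper6.TW.hD2 Helper6.TW.hD3 Helper74.TW.hD4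

theorem pFSP : StFSP := Helper22.KP.hFSP Helper9.TW.pAX Helper74.TW.hD4 pD5P Helper66.KP.hD6P

theorem pC8P : StC8P := Helper39.KP.hC8P Helper18.TR.bonf Helper18.TR.flMain hRTS

theorem pC10P : StC10P := Helper29.KP.hC10P pFSP pCAP (Helper1.KP.hLOC Helper18.TR.pf_Level)
  (Helper81.KP.hVLP Helper15.AB.hMT hRTS) pC8P Helper9.TW.hC9 Helper9.TW.pMER
  (Helper84.TW.hPOS Helper8.TW.hWFX)

theorem pFNA : StFNA := Helper88.KP.hFNA pC10P Helper83.KP.hPTP

theorem pFNP : StFNP := Helper85.KP.hFNP pFNA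

theorem pFinal : ∀ ε : ℝ, 0 < ε → ∃ κ : ℝ, 0 < κ ∧ ∃ N₀ : ℕ, ∀ N : ℕ, N₀ ≤ N →
    (((Finset.Icc 1 N).filter (fun n => ((kt ε n).card : ℝ) < (n : ℝ) ^ κ)).card : ℝ) ≤
      (N : ℝ) ^ (1 - κ) := pFin pFNP

end Pool.Agent.Helper93.KP
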