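import Pool.Agent.Helper9.TW.St
import Pool.Agent.Helper15.FC.St4

/-!
# Project KP (MP_77e955_nt): `k (n - k) - 1` a product of at most two primes with `k ≤ n ^ ε`, for almost all `n`

Definitions.
-/

set_option autoImplicit false

noncomputable section

namespace Pool.Agent.Helper93.KP

open Finset Filter Topology
open Pool.Agent.Helper15.AB (ee Kl StDB StMT)
open Pool.Agent.Helper9.TW (iv bx Rg cc Dec WF bm ms ind UpP LoP gm Ax GUp GLo Qs fm ej)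

/-- the range of `n` -/
def NN (a : ℕ) : Finset ℕ := Ioc (a ^ 2) (4 * a ^ 2)

/-- `k (n - k) - 1` as an integer -/
def gk (n k : ℕ) : ℤ := (k : ℤ) * n - (k : ℤ) ^ 2 - 1

/-- `k (n - k) - 1` as a natural number -/
def vk (n k : ℕ) : ℕ := k * (n - k) - 1

theorem vk_cast (n k : ℕ) (hk : 1 ≤ k) (h : k < n) : (vk n k : ℤ) = gk n k := by
  unfold vk gk
  have h1 : 1 ≤ k * (n - k) := Nat.mul_pos hk (by omega)
  rw [Nat.cast_sub h1, Nat.cast_mul, Nat.cast_sub h.le]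
  push_cast
  ring

theorem dvd_vk (n k q : ℕ) (hk : 1 ≤ k) (h : k < n) : q ∣ vk n k ↔ (q : ℤ) ∣ gk n k := by
  rw [← vk_cast n k hk h, Int.natCast_dvd_natCast]

/-- number of `n` in a class with `q ∣ vk n k` and `q' ∣ vk n k'` -/
def cn (a d ν k k' q q' : ℕ) : ℕ :=
  ((NN a).filter (fun n => n % d = ν ∧ q ∣ vk n k ∧ q' ∣ vk n k')).card

open Classical in
/-- indicator function of the coprimality conditions -/
def cd (e k' m n x y : ℕ) : ℝ :=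
  if Nat.Coprime (m * n) e ∧ Squarefree (x * y) ∧ Nat.Coprime (x * y) (e * k' * (m * n)) then 1 else 0

open Classical in
/-- the weights of the fundamental lemma at `k` -/
def tk (i a : ℕ) (θ : ℝ) (u n k : ℕ) : ℝ :=
  ∑ D ∈ fm i a θ u, (-1 : ℝ) ^ D.card * ∏ p ∈ D, (if (p : ℤ) ∣ gk n k then (1 : ℝ) else 0)

/-- number of roots modulo `p` -/
def rn (n p : ℕ) : ℕ := ((range p).filter (fun r : ℕ => (p : ℤ) ∣ gk n (30 * r))).card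

/-- the density -/
def gn (n p : ℕ) : ℝ := (rn n p : ℝ) / p

/-- the mean value of the weights -/
def TK (i a : ℕ) (θ : ℝ) (u n : ℕ) : ℝ := ∑ D ∈ fm i a θ u, (-1 : ℝ) ^ D.card * ∏ p ∈ D, gn n p

open Classical in
/-- indicator function of: no prime of `Qs` divides `gk n k` -/
def qk (a : ℕ) (θ : ℝ) (n k : ℕ) : ℝ := if ∀ p ∈ Qs a θ, ¬ (p : ℤ) ∣ gk n k then 1 else 0

/-- the plain double sums attached to a decomposition -/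
def PP (T : ℕ) (M N : ℝ) (al be : ℕ → ℕ → ℝ) (v : ℕ) : ℝ :=
  ∑ t ∈ range T, ∑ m ∈ Icc 1 ⌊M⌋₊, ∑ n ∈ Icc 1 ⌊N⌋₊,
    al t m * be t n * (if m * n ∣ v then (1 : ℝ) else 0)

/-- their mean value -/
def MU (T : ℕ) (M N : ℝ) (al be : ℕ → ℕ → ℝ) : ℝ :=
  ∑ t ∈ range T, ∑ m ∈ Icc 1 ⌊M⌋₊, ∑ n ∈ Icc 1 ⌊N⌋₊, al t m * be t n / (m * n)

open Classical in
/-- the mean value of `PP` at the numbers `vk n k` for fixed `k` -/
def MK (T : ℕ) (M N : ℝ) (al be : ℕ → ℕ → ℝ) (k : ℕ) : ℝ :=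
  ∑ t ∈ range T, ∑ m ∈ Icc 1 ⌊M⌋₊, ∑ n ∈ Icc 1 ⌊N⌋₊,
    al t m * be t n / (m * n) * (if Nat.Coprime (m * n) k then (1 : ℝ) else 0)

/-- the product of two sums `PP` with the coprimality conditions -/
def PC (T : ℕ) (M N : ℝ) (al be : ℕ → ℕ → ℝ) (k k' n : ℕ) : ℝ :=
  ∑ t ∈ range T, ∑ s ∈ range T, ∑ m ∈ Icc 1 ⌊M⌋₊, ∑ l ∈ Icc 1 ⌊N⌋₊,
    ∑ x ∈ Icc 1 ⌊M⌋₊, ∑ y ∈ Icc 1 ⌊N⌋₊, cd k k' m l x y * (al t m * be t l * al s x * be s y) *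
      (if m * l ∣ vk n k ∧ x * y ∣ vk n k' then (1 : ℝ) else 0)

/-- its mean value -/
def MC (T : ℕ) (M N : ℝ) (al be : ℕ → ℕ → ℝ) (k k' : ℕ) : ℝ :=
  ∑ t ∈ range T, ∑ s ∈ range T, ∑ m ∈ Icc 1 ⌊M⌋₊, ∑ l ∈ Icc 1 ⌊N⌋₊,
    ∑ x ∈ Icc 1 ⌊M⌋₊, ∑ y ∈ Icc 1 ⌊N⌋₊, cd k k' m l x y * (al t m * be t l * al s x * be s y) /
      ((m * l : ℕ) * (x * y : ℕ) : ℝ)

open Classical in
/-- `n` such that some `p ^ 2`, `z ≤ p`, divides `vk n k` -/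
def SQ (a : ℕ) (z : ℝ) (k : ℕ) : Finset ℕ :=
  (NN a).filter (fun n => ∃ p : ℕ, p.Prime ∧ z ≤ (p : ℝ) ∧ p ^ 2 ∣ vk n k)

open Classical in
/-- the exceptional `n` for a pair `k`, `k'` -/
def BD (a : ℕ) (z : ℝ) (k k' : ℕ) : Finset ℕ :=
  (NN a).filter (fun n => ∃ p : ℕ, p.Prime ∧ z ≤ (p : ℝ) ∧ (p ^ 2 ∣ vk n k ∨ p ^ 2 ∣ vk n k' ∨
    (p ∣ vk n k ∧ p ∣ vk n k') ∨ (p ∣ k ∧ p ∣ vk n k') ∨ (p ∣ k' ∧ p ∣ vk n k)))

open Classical in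
/-- the `j ≤ K` such that no `p ^ 2`, `z ≤ p`, divides `vk n (30 j)` -/
def Jn (z : ℝ) (K n : ℕ) : Finset ℕ :=
  (Icc 1 K).filter (fun j => ∀ p : ℕ, p.Prime → z ≤ (p : ℝ) → ¬ p ^ 2 ∣ vk n (30 * j))

/-- the bounds and supports of a decomposition -/
def Sup (a : ℕ) (z B : ℝ) (al be : ℕ → ℕ → ℝ) : Prop :=
  (∀ t m, |al t m| ≤ B ∧ |be t m| ≤ B) ∧ (∀ t m, al t m ≠ 0 → Rg a z m) ∧ (∀ t m, be t m ≠ 0 → Rg a z m)

end Pool.Agent.Helper93.KP
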