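import Pool.Agent.Helper93.KP.St

/-!
# Project KP: last step
-/

set_option autoImplicit false

noncomputable section

namespace Pool.Agent.Helper93.KP

open Finset

open Classical in
/-- the integers `k`, `1 ≤ k ≤ n ^ ε` and `k ≤ n / 2`, for which `k (n - k) - 1` is a prime or a product of two primes -/
def kt (ε : ℝ) (n : ℕ) : Finset ℕ :=
  (Icc 1 (n / 2)).filter (fun k => (k : ℝ) ≤ (n : ℝ) ^ ε ∧
    ((k * (n - k) - 1).Prime ∨ ∃ p q : ℕ, p.Prime ∧ q.Prime ∧ k * (n - k) - 1 = p * q))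

private theorem om_two (v : ℕ) (hv : 2 ≤ v) (h : ArithmeticFunction.cardFactors v ≤ 2) :
    v.Prime ∨ ∃ p q : ℕ, p.Prime ∧ q.Prime ∧ v = p * q := by
  by_cases hp : v.Prime
  · exact Or.inl hp
  · right
    have h0 : v ≠ 0 := by omega
    have h1 : v.minFac.Prime := Nat.minFac_prime (by omega)
    obtain ⟨w, hw⟩ := Nat.minFac_dvd v
    have hw0 : w ≠ 0 := by
      rintro rfl
      omega
    have hw1 : w ≠ 1 := by
      rintro rfl
      apply hp
      rw [hw, mul_one]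
      exact h1
    have h2 : ArithmeticFunction.cardFactors v = ArithmeticFunction.cardFactors v.minFac +
        ArithmeticFunction.cardFactors w := by
      conv_lhs => rw [hw]
      exact ArithmeticFunction.cardFactors_mul h1.ne_zero hw0
    rw [ArithmeticFunction.cardFactors_apply_prime h1] at h2
    have h3 : ArithmeticFunction.cardFactors w ≠ 0 := by
      intro h4
      rcases ArithmeticFunction.cardFactors_eq_zero_iff_eq_zero_or_one.1 h4 with h5 | h5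
      · exact hw0 h5
      · exact hw1 h5
    have h4 : ArithmeticFunction.cardFactors w = 1 := by omega
    exact ⟨v.minFac, w, h1, ArithmeticFunction.cardFactors_eq_one_iff_prime.1 h4, hw⟩

open Classical in
private theorem mem_kt (ε : ℝ) (n k : ℕ) : k ∈ kt ε n ↔ k ∈ Icc 1 (n / 2) ∧ (k : ℝ) ≤ (n : ℝ) ^ ε ∧
    ((k * (n - k) - 1).Prime ∨ ∃ p q : ℕ, p.Prime ∧ q.Prime ∧ k * (n - k) - 1 = p * q) := by
  unfold kt
  rw [mem_filter]

private theorem ks_sub (ε : ℝ) (n : ℕ) (hn : 4 ≤ n) : ks ε n ⊆ kt ε n := by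
  intro k hk
  unfold ks at hk
  rw [mem_filter, mem_Icc] at hk
  refine (mem_kt ε n k).2 ⟨mem_Icc.2 hk.1, hk.2.1, om_two _ ?_ hk.2.2⟩
  obtain ⟨⟨h1, h2⟩, -⟩ := hk
  have h3 : k + 2 ≤ n := by omega
  have h4 : 1 * (n - k) ≤ k * (n - k) := Nat.mul_le_mul_right _ h1
  have h5 : n - k ≥ 3 ∨ (n = 4 ∧ k = 2) := by omega
  rcases h5 with h5 | ⟨rfl, rfl⟩
  · omega
  · norm_num

theorem pFin (h : StFNP) : ∀ ε : ℝ, 0 < ε → ∃ κ : ℝ, 0 < κ ∧ ∃ N₀ : ℕ, ∀ N : ℕ, N₀ ≤ N →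
    (((Icc 1 N).filter (fun n => ((kt ε n).card : ℝ) < (n : ℝ) ^ κ)).card : ℝ) ≤ (N : ℝ) ^ (1 - κ) := by
  intro ε hε
  obtain ⟨κ, hκ, N₀, hN⟩ := h ε hε
  have hlim : Filter.Tendsto (fun N : ℕ => (N : ℝ) ^ (κ / 2)) Filter.atTop Filter.atTop :=
    (tendsto_rpow_atTop (by linarith)).comp tendsto_natCast_atTop_atTop
  obtain ⟨N₁, hN₁⟩ := Filter.eventually_atTop.1 (hlim.eventually_ge_atTop 2)
  have hlim2 : Filter.Tendsto (fun N : ℕ => (N : ℝ) ^ (min (1 / 2) (κ / 2))) Filter.atTop Filter.atTop :=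
    (tendsto_rpow_atTop (lt_min (by norm_num) (by linarith))).comp tendsto_natCast_atTop_atTop
  obtain ⟨N₂, hN₂⟩ := Filter.eventually_atTop.1 (hlim2.eventually_ge_atTop 6)
  refine ⟨min (1 / 2) (κ / 2), lt_min (by norm_num) (by linarith), max (max N₀ N₁) (max N₂ 1), fun N hNN => ?_⟩
  have a1 : N₀ ≤ N := le_trans (le_trans (le_max_left _ _) (le_max_left _ _)) hNN
  have a2 : N₁ ≤ N := le_trans (le_trans (le_max_right _ _) (le_max_left _ _)) hNN
  have a3 : N₂ ≤ N := le_trans (le_trans (le_max_left _ _) (le_max_right _ _)) hNN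
  have a4 : 1 ≤ N := le_trans (le_trans (le_max_right _ _) (le_max_right _ _)) hNN
  have hN1 : (1 : ℝ) ≤ N := by exact_mod_cast a4
  have hN0 : (0 : ℝ) < N := by linarith
  set k0 : ℝ := min (1 / 2) (κ / 2) with hk0
  have hk0' : 0 < k0 := lt_min (by norm_num) (by linarith)
  have hk1 : k0 ≤ 1 / 2 := min_le_left _ _
  have hk2 : k0 ≤ κ / 2 := min_le_right _ _
  have hsub : (Icc 1 N).filter (fun n => ((kt ε n).card : ℝ) < (n : ℝ) ^ k0) ⊆
      (Icc 1 N).filter (fun n => ((ks ε n).card : ℝ) < (n : ℝ) ^ κ) ∪ Icc 1 3 := by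
    intro n hn
    rw [mem_filter, mem_Icc] at hn
    rw [mem_union, mem_filter, mem_Icc, mem_Icc]
    by_cases h4 : 4 ≤ n
    · left
      refine ⟨hn.1, lt_of_le_of_lt ?_ (lt_of_lt_of_le hn.2 ?_)⟩
      · exact_mod_cast card_le_card (ks_sub ε n h4)
      · exact Real.rpow_le_rpow_of_exponent_le (by exact_mod_cast hn.1.1) (by linarith)
    · right
      omega
  have hc : (((Icc 1 N).filter (fun n => ((kt ε n).card : ℝ) < (n : ℝ) ^ k0)).card : ℝ) ≤
      (N : ℝ) ^ (1 - κ) + 3 := by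
    have e1 := card_le_card hsub
    have e2 := card_union_le ((Icc 1 N).filter (fun n => ((ks ε n).card : ℝ) < (n : ℝ) ^ κ)) (Icc 1 3)
    have e3 : (Icc 1 3 : Finset ℕ).card = 3 := by simp
    have e4 := e1.trans e2
    rw [e3] at e4
    have e5 : (((Icc 1 N).filter (fun n => ((kt ε n).card : ℝ) < (n : ℝ) ^ k0)).card : ℝ) ≤
        (((Icc 1 N).filter (fun n => ((ks ε n).card : ℝ) < (n : ℝ) ^ κ)).card : ℝ) + 3 := by exact_mod_cast e4
    linarith [hN N a1]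
  refine hc.trans ?_
  have b1 : (N : ℝ) ^ (1 - k0) = (N : ℝ) ^ (κ - k0) * (N : ℝ) ^ (1 - κ) := by
    rw [← Real.rpow_add hN0]; congr 1; ring
  have b2 : (2 : ℝ) ≤ (N : ℝ) ^ (κ - k0) :=
    (hN₁ N a2).trans (Real.rpow_le_rpow_of_exponent_le hN1 (by linarith))
  have b3 : (6 : ℝ) ≤ (N : ℝ) ^ (1 - k0) :=
    (hN₂ N a3).trans (Real.rpow_le_rpow_of_exponent_le hN1 (by linarith))
  have b4 : 0 ≤ (N : ℝ) ^ (1 - κ) := by positivity
  nlinarith

end Pool.Agent.Helper93.KP
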