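import Pool.Agent.Helper93.KP.Defs

/-!
# Project KP (MP_77e955_nt): statements of the modules, with complete proofs

THEOREM. For every `ε > 0` there is `κ > 0` such that for all but `N ^ (1 - κ)` of the `n ≤ N` there are at least `n ^ κ`
numbers `k ≤ n ^ ε` such that `k (n - k) - 1` has at most two prime factors.

Overview. `a ^ 2 < n ≤ 4 a ^ 2`, `k = 30 j`, `j ≤ K = a ^ κ₀`. Part K: for `k ≠ k'` the quadrilinear form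
`∑ #{n : m l ∣ vk n k, x y ∣ vk n k'}`, `m, x ≤ a ^ (1 - δ)`, `l, y ≤ a ^ (1/10 - δ)`, by Weil's bound for Kloosterman sums.
Part V: the variance over `n` of the sum over `k` of well factorable weights. Part D, C: linear sieve, fundamental lemma
and Richert's weights as in project TW (`Pool/Agent/Helper9/TW/St.lean`; the proved facts are listed in
`Pool/Agent/Helper9/TW/All.lean` and may be imported, as `Pool.Agent.Helper15.AB.hDB : StDB`, `Pool.Agent.Helper15.AB.hMT : StMT`,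
`Pool.Agent.Helper18.TR.pf_Level : StLevel`, `Pool.Agent.Helper18.TR.bonf : StBonf`,
`Pool.Agent.Helper18.TR.flMain : StFLmain`). Models for the modules: the modules of project TW (`M_INC`, `M_BIL`, `M_BOX`, `M_EDG`,
`M_BL`, `M_C3` - `M_C10`, `M_D5`, `M_D6`, `M_FS`, `M_PT`, `M_FIN`); copy as much as possible from them.
-/

set_option autoImplicit false

noncomputable section

namespace Pool.Agent.Helper93.KP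

open Finset Filter Topology
open Pool.Agent.Helper15.AB (ee Kl StDB StMT)
open Pool.Agent.Helper9.TW (iv bx Rg cc Dec WF bm ms ind UpP LoP gm Ax GUp GLo Qs fm ej
  StFOU StMER StMSB StINQ StWFJ StPOS StC5 StC6 StC9 StAX StD1 StD2 StD3 StD4)
open Pool.Agent.Helper18.TR (fam0 fam1 StBonf StFLmain StLevel)
open Pool.Agent.Helper15.FC (StWKL)

/-! ## K. Kloosterman sums and the quadrilinear form -/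

/-- (WEI, assume `hW : StWKL`.) PROOF. Induction over the squarefree number `r` (`r = p r'`, `p` prime, `p ∤ r'`). Twisted
multiplicativity for coprime `r₁`, `r₂`: `e(x / (r₁ r₂)) = e(x iv(r₁, r₂) / r₁) e(x iv(r₂, r₁) / r₂)` and the Chinese remainder theorem give
`Kl(r₁ r₂; α, β) = Kl(r₁; α iv(r₁, r₂), β iv(r₁, r₂)) Kl(r₂; α iv(r₂, r₁), β iv(r₂, r₁))`; the factors `iv` are units, so the gcd's do not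
change, and `gcd(gcd(α, β), r₁ r₂)` is the product of the two gcd's. For a prime `p`: if `p ∤ α` or `p ∤ β` then `|Kl| ≤ 2 √p` by
`StWKL` for `F = ZMod p` and `ψ(x) = e(x / p)`; otherwise `|Kl| = p - 1 ≤ 2 √p √p`. `τ(p) = 2`. -/
def StWEI : Prop := ∀ (r : ℕ) (α β : ℤ), Squarefree r →
  ‖Kl r α β‖ ≤ (r.divisors.card : ℝ) * √(Int.gcd (Int.gcd α β) r : ℝ) * √(r : ℝ)

/-- (INS, assume `hW : StWEI`, `hDB : StDB`.) Incomplete sums over a progression. PROOF. `m = μ + e t`, `t` runs over an interval of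
`L ≤ (M₂ - M₁) / e + 1` consecutive integers (if `μ ≥ e` the sum is empty). Completion (as in `Helper30/TW/M_INC.lean`): for an `r`-periodic `f` one has
`∑_{t ∈ I} f(t) = (1/r) ∑_{j < r} (∑_{t ∈ I} e(- j t / r)) (∑_{t < r} f(t) e(j t / r))` (for intervals of any length). Here
`f(t) = e(κ iv(μ + e t) / r)` for `μ + e t` prime to `r` and `0` otherwise, and with `s = μ + e t`, `t = ē (s - μ)`,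
`∑_t f(t) e(j t / r) = e(- j ē μ / r) Kl(r; j ē, κ)`, in absolute value at most `τ(r) √(gcd(κ, r)) √r` by WEI
(`gcd(gcd(j ē, κ), r) ∣ gcd(κ, r)`). The geometric sums: `L` for `j = 0` and at most `r / (2 min(j, r - j))` otherwise (`M_FJ.gg_bound`,
`harm_le`): the total is at most `τ(r) √(gcd(κ, r)) √r (L / r + 1 + log r)`, and `L / √r ≤ (M₂ - M₁) / √r + 1`. -/
def StINS : Prop := ∀ ε : ℝ, 0 < ε → ∃ C : ℝ, 0 < C ∧ ∀ (r e μ : ℕ) (κ : ℤ) (M₁ M₂ : ℕ), Squarefree r →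
  1 ≤ e → Nat.Coprime e r → M₁ ≤ M₂ →
  ‖∑ m ∈ (Ioc M₁ M₂).filter (fun m => m % e = μ ∧ Nat.Coprime m r), ee (((κ * (iv r m : ℤ) : ℤ) : ℝ) / r)‖ ≤
    C * (r : ℝ) ^ ε * √(Int.gcd κ r : ℝ) * (√(r : ℝ) + ((M₂ : ℝ) - M₁) / √(r : ℝ))

/-- (CNT, no hypotheses.) PROOF. Let `Z = H U`. The map `((h, n), (h₁, n₁)) ↦ (s, t) = (h n₁, h₁ n)` has fibres of size at most `T ^ 2`, and
`s, t ∈ [1, Z]`. So the sum is at most `T ^ 2 ∑_{s, t ≤ Z, s X ≠ t Y} √gcd(s X - t Y, R)`, and `√gcd(Δ, R) ≤ ∑_{g ∣ R, g ∣ Δ} √g`. For `g ∣ R`: the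
number of the pairs `(s, t)` with `g ∣ s X - t Y` is at most `Z ^ 2 / g + Z`: let `g₂ = gcd(g, Y)`; `g₂ ∣ s X` and `g₂` is prime to `X`, so
`g₂ ∣ s` (at most `Z / g₂` values `s`), and for given `s` two solutions `t`, `t'` satisfy `(g / g₂) ∣ t - t'` (at most `Z g₂ / g + 1` values). If
there is a pair with `s X ≠ t Y` then `g ≤ |s X - t Y| ≤ Z V`. So `√g (Z ^ 2 / g + Z) ≤ Z ^ 2 + Z √(Z V)`; sum over the `τ(R)` divisors. -/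
def StCNT : Prop := ∀ (H U V R X Y : ℕ) (T : ℝ), 1 ≤ R → 1 ≤ X → X ≤ V → 1 ≤ Y → Y ≤ V →
  Nat.Coprime X Y → (∀ j : ℕ, 1 ≤ j → j ≤ H * U → (j.divisors.card : ℝ) ≤ T) →
  ∑ v ∈ ((Icc 1 H ×ˢ Icc 1 U) ×ˢ (Icc 1 H ×ˢ Icc 1 U)).filter (fun v : (ℕ × ℕ) × (ℕ × ℕ) =>
      (v.1.1 : ℤ) * v.2.2 * X - v.2.1 * v.1.2 * Y ≠ 0),
      √(Int.gcd ((v.1.1 : ℤ) * v.2.2 * X - v.2.1 * v.1.2 * Y) R : ℝ) ≤
    T ^ 2 * R.divisors.card * (((H : ℝ) * U) ^ 2 + (H : ℝ) * U * √((H : ℝ) * U * V))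

/-- (DIA, no hypotheses.) PROOF. `v = ((h, n, y), (h₁, n₁, y₁))`. For the `H U V` choices of `(h, n₁, y₁)` the product
`P = h n₁ y₁ ≤ H U V` is given and `(h₁, n, y)` is a triple with product `P`: at most `τ(P) ^ 2` choices (`h₁ ∣ P`, `n ∣ P`, then `y`). -/
def StDIA : Prop := ∀ (H U V : ℕ) (T : ℝ), (∀ j : ℕ, 1 ≤ j → j ≤ H * U * V → (j.divisors.card : ℝ) ≤ T) →
  ((((Icc 1 H ×ˢ (Icc 1 U ×ˢ Icc 1 V)) ×ˢ (Icc 1 H ×ˢ (Icc 1 U ×ˢ Icc 1 V))).filter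
    (fun v : (ℕ × ℕ × ℕ) × (ℕ × ℕ × ℕ) =>
      v.1.1 * v.2.2.1 * v.2.2.2 = v.2.1 * v.1.2.1 * v.1.2.2)).card : ℝ) ≤ T ^ 2 * ((H : ℝ) * U * V)

/-- (PHA, no hypotheses.) Product of two phases. PROOF. `R = x lcm(y, y₁)`, `X = y₁ / gcd(y, y₁) = R / (x y)`, `Y = y / gcd(y, y₁) = R / (x y₁)`; `R` is
squarefree (the lcm of the squarefree numbers `x y` and `x y₁`). Let `b = iv(x y, g n)`, `b₁ = iv(x y₁, g n₁)`, `κ' = h X b - h₁ Y b₁`, `κ = c κ'`. Since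
`iv(x y, g m n) ≡ b iv(R, m) (mod x y)`, the first phase is `h c b iv(R, m) / (x y) = h c X b iv(R, m) / R` modulo `1`, and the
second one is `h₁ c Y b₁ iv(R, m) / R`: this is the identity. The gcd: `gcd(c κ', R) ≤ |c| gcd(κ', R)`, and `gcd(κ', R)` divides `gcd(Δ, R)`,
`Δ = h n₁ X - h₁ n Y`, since every prime `p ∣ R` (`R` squarefree) with `p ∣ κ'` divides `Δ`: if `p ∣ x y` and `p ∣ x y₁` then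
`g n b ≡ g n₁ b₁ ≡ 1`, so `g n n₁ κ' ≡ Δ (mod p)`; if `p ∣ x y`, `p ∤ x y₁` then `p ∣ Y`, `p ∤ X` (`R` squarefree), `p ∤ b`, so `p ∣ h` and `p ∣ Δ`; if
`p ∤ x y`, `p ∣ x y₁` then `p ∣ X`, `p ∤ Y`, `p ∤ b₁`, so `p ∣ h₁` and `p ∣ Δ`. -/
def StPHA : Prop := ∀ (x y y₁ g n n₁ h h₁ : ℕ) (c : ℤ), c ≠ 0 → Squarefree (x * y) → Squarefree (x * y₁) →
  Nat.Coprime (x * y) (g * n) → Nat.Coprime (x * y₁) (g * n₁) → ∃ κ : ℤ,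
  (Int.gcd κ ((x * Nat.lcm y y₁ : ℕ) : ℤ) : ℝ) ≤ |(c : ℝ)| *
    (Int.gcd ((h : ℤ) * n₁ * ((y₁ / Nat.gcd y y₁ : ℕ) : ℤ) - h₁ * n * ((y / Nat.gcd y y₁ : ℕ) : ℤ))
      ((x * Nat.lcm y y₁ : ℕ) : ℤ) : ℝ) ∧
  ∀ m : ℕ, Nat.Coprime m (x * Nat.lcm y y₁) →
    ee (((h * c * (iv (x * y) (g * m * n) : ℤ) : ℤ) : ℝ) / ((x * y : ℕ) : ℝ)) *
      (starRingEnd ℂ) (ee (((h₁ * c * (iv (x * y₁) (g * m * n₁) : ℤ) : ℤ) : ℝ) / ((x * y₁ : ℕ) : ℝ))) =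
    ee (((κ * (iv (x * Nat.lcm y y₁) m : ℤ) : ℤ) : ℝ) / ((x * Nat.lcm y y₁ : ℕ) : ℝ))

/-- (BIV, assume `hP : StPHA`, `hI : StINS`, `hC : StCNT`, `hD : StDIA`, `hDB : StDB`.) PROOF. `M' = M₂ - M₁`. Cauchy-Schwarz over the pairs
`(m, x)` (at most `M' A` of them, `|al m| ≤ 1`): the square is at most `M' A ∑_x ∑_m |∑_{h, n, y} ga e(...)| ^ 2`. Expand (lemma `bil_sq` of
`Helper15/TW/M_BIL.lean`) and sum over `m` first: `∑_x ∑_{(h, n, y), (h₁, n₁, y₁)} |∑_m e(...) conj e(...)|`, where the conditions are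
(not on `m`) `x y`, `x y₁` squarefree, `x y` prime to `e g n`, `x y₁` prime to `e g n₁`, and `m` prime to `x y` and `x y₁`, i.e. to `R = x lcm(y, y₁)`. By PHA the
inner sum is `∑_{m ∈ (M₁, M₂], m % e = μ, (m, R) = 1} e(κ iv(R, m) / R)`, `gcd(κ, R) ≤ |c| gcd(Δ, R)`, `Δ = h n₁ X - h₁ n Y`. (1) `Δ = 0`, i.e.
`h n₁ y₁ = h₁ n y`: trivial bound `M'`; by DIA (`V = U'`) in total at most `A M' T ^ 2 H U U'`. (2) `Δ ≠ 0`: INS gives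
`C R ^ ε' √|c| √gcd(Δ, R) (√R + M' / √R)`; for given `x, y, y₁` the sum over `h, n, h₁, n₁` of `√gcd(Δ, R)` is by CNT (`V = U'`;
`X ≤ y₁ ≤ U'`, `Y ≤ U'` are coprime) at most `T ^ 2 τ(R) ((H U) ^ 2 + (H U) ^ (3/2) √U')`. Finally `x ≤ R ≤ A U' ^ 2`, so
`∑_{x, y, y₁} √R ≤ A ^ (3/2) U' ^ 3` and `∑_{x, y, y₁} 1 / √R ≤ 2 √A U' ^ 2`. `T`, `τ(R)`, `R ^ ε'` are at most `C W ^ (3 ε')` by DB. `√|c| ≥ 1`. -/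
def StBIV : Prop := ∀ ε : ℝ, 0 < ε → ∃ C : ℝ, 0 < C ∧ ∀ (e μ g M₁ M₂ A H U U' : ℕ) (c : ℤ) (W : ℝ)
  (al : ℕ → ℂ) (ga : ℕ → ℕ → ℕ → ℕ → ℂ), 1 ≤ e → 1 ≤ g → c ≠ 0 → M₁ ≤ M₂ → 1 ≤ A → 1 ≤ H → 1 ≤ U →
  1 ≤ U' → 1 ≤ W → (M₂ : ℝ) ≤ W → (A : ℝ) ≤ W → (H : ℝ) ≤ W → (U : ℝ) ≤ W → (U' : ℝ) ≤ W →
  (∀ m, ‖al m‖ ≤ 1) → (∀ x h n y, ‖ga x h n y‖ ≤ 1) →
  ‖∑ m ∈ (Ioc M₁ M₂).filter (fun m => m % e = μ), ∑ x ∈ Icc 1 A, ∑ h ∈ Icc 1 H, ∑ n ∈ Icc 1 U,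
      ∑ y ∈ (Icc 1 U').filter (fun y => Squarefree (x * y) ∧ Nat.Coprime (x * y) (e * g * m * n)),
        al m * ga x h n y *
          ee (((h * c * (iv (x * y) (g * m * n) : ℤ) : ℤ) : ℝ) / ((x * y : ℕ) : ℝ))‖ ^ 2 ≤
    C * W ^ ε * √|(c : ℝ)| * (((M₂ : ℝ) - M₁ + 1) * A) *
      (((M₂ : ℝ) - M₁ + 1) * A * (H * U * U') +
        (((H : ℝ) * U) ^ 2 + ((H : ℝ) * U) ^ (3 / 2 : ℝ) * √(U' : ℝ)) *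
          ((A : ℝ) ^ (3 / 2 : ℝ) * (U' : ℝ) ^ 3 + ((M₂ : ℝ) - M₁ + 1) * √(A : ℝ) * (U' : ℝ) ^ 2))

/-- (FRQ, assume `hF : StFOU`.) PROOF. `r = e₀ q'`. For `q` prime to `e₀ q'` the two conditions on `e` say `r ∣ e - v` with
`v = x₀ iv(e₀, q) q' iv(e₀, q') + c iv(q', k' q) e₀ iv(q', e₀)` (Chinese remainder theorem: modulo `e₀` the second summand vanishes and the first one is
`x₀ iv(e₀, q)`; modulo `q'` the first vanishes and the second is `c iv(q', k' q)`). Insert FOU; `h v / r = h x₀ iv(e₀, q) iv(e₀, q') / e₀ +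
h c iv(q', k' q) iv(q', e₀) / q'` and `iv(q', k' q) iv(q', e₀) ≡ iv(q', e₀ k' q) (mod q')`. -/
def StFRQ : Prop := ∀ e₀ q' E₁ E₂ : ℕ, 1 ≤ e₀ → 1 ≤ q' → Nat.Coprime e₀ q' → E₁ ≤ E₂ → ∃ f f' : ℕ → ℂ,
  (∀ h ∈ Icc 1 (e₀ * q' / 2), ‖f h‖ ≤ min (((E₂ : ℝ) - E₁) / (e₀ * q')) (1 / (2 * h)) ∧
    ‖f' h‖ ≤ min (((E₂ : ℝ) - E₁) / (e₀ * q')) (1 / (2 * h))) ∧
  ∀ (q k' : ℕ) (x₀ c : ℤ), Nat.Coprime q (e₀ * q') → Nat.Coprime k' q' →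
    ((((Ioc E₁ E₂).filter (fun e : ℕ => (e₀ : ℤ) ∣ (q : ℤ) * e - x₀ ∧
      (q' : ℤ) ∣ (k' : ℤ) * q * e - c)).card : ℕ) : ℂ) =
    ((((E₂ : ℝ) - E₁) / (e₀ * q') : ℝ) : ℂ) + ∑ h ∈ Icc 1 (e₀ * q' / 2),
      (f h * (ee (((h * x₀ * (iv e₀ q : ℤ) * (iv e₀ q' : ℤ) : ℤ) : ℝ) / e₀) *
          ee (((h * c * (iv q' (e₀ * k' * q) : ℤ) : ℤ) : ℝ) / q')) +
        f' h * (ee (((-(h * x₀ * (iv e₀ q : ℤ) * (iv e₀ q' : ℤ)) : ℤ) : ℝ) / e₀) *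
          ee (((-(h * c * (iv q' (e₀ * k' * q) : ℤ)) : ℤ) : ℝ) / q')))

/-- (BXV, assume `hF : StFRQ`, `hB : StBIV`.) PROOF. Let `E = E₂ - E₁`, `M' = M₂ - M₁ + 1`. For `cd = 1` insert FRQ with `q = m n`, `q' = x y`
(`e₀ q' > e₀ A U' / 4`); the main term cancels. For `2 ^ i ≤ h < 2 ^ (i + 1)`, `h ≤ e₀ x y / 2` the coefficients `f`, `f'` (they depend on `x y`) are at
most `X = min(4 E / (e₀ A U'), 2 ^ (- i - 1))`. Split the sum over `m` into the classes `m % e₀ = μ`, `μ < e₀` prime to `e₀`; then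
`e(h x₀ iv(e₀, m n) iv(e₀, x y) / e₀)` depends on `μ`, `h`, `n`, `x y` only. Apply BIV with `e = e₀`, `g = e₀ k'`, `H = 2 ^ (i + 1) ≤ e₀ A U' ≤ W`
(only `i` with `2 ^ i ≤ e₀ A U' / 2` occur), `al m` and `ga x h n y` = the product of `f h / X` (`0` if `h` is not in the range), `be n`, `al' x`, `be' y`, the
phase modulo `e₀`, the indicators of `x > A / 2`, `y > U' / 2`, `(n, e₀) = 1` (for `f'` take the complex conjugate or `- c`, `- x₀`; if `X = 0` all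
is `0`). Since `X H ≤ 1`, `X ^ 2 H ≤ 4 E / (A U')` and `X ^ 2 H ^ (3/2) ≤ 1`, the square of the part is at most
`C W ^ ε' √|c| M' A (4 M' E U + (U ^ 2 + U ^ (3/2) √U') (A ^ (3/2) U' ^ 3 + M' √A U' ^ 2))`; use `√(u + v) ≤ √u + √v`. There are at most
`2 e₀ (log₂ W + 1) ≤ C e₀ W ^ ε'` parts. -/
def StBXV : Prop := ∀ ε : ℝ, 0 < ε → ∃ C : ℝ, 0 < C ∧ ∀ (e₀ k' M₁ M₂ A U U' E₁ E₂ : ℕ) (c x₀ : ℤ) (W : ℝ)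
  (al be al' be' : ℕ → ℝ), 1 ≤ e₀ → 1 ≤ k' → c ≠ 0 → M₁ ≤ M₂ → 1 ≤ A → 1 ≤ U → 1 ≤ U' → E₁ ≤ E₂ →
  1 ≤ W → (M₂ : ℝ) ≤ W → (e₀ : ℝ) * A * U' ≤ W → (U : ℝ) ≤ W →
  (∀ m, |al m| ≤ 1) → (∀ m, |be m| ≤ 1) → (∀ m, |al' m| ≤ 1) → (∀ m, |be' m| ≤ 1) →
  |∑ m ∈ Ioc M₁ M₂, ∑ n ∈ Icc 1 U, ∑ x ∈ Ioc (A / 2) A, ∑ y ∈ Ioc (U' / 2) U',
    cd e₀ k' m n x y * (al m * be n * al' x * be' y) *
      ((((Ioc E₁ E₂).filter (fun e : ℕ => (e₀ : ℤ) ∣ ((m * n : ℕ) : ℤ) * e - x₀ ∧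
        ((x * y : ℕ) : ℤ) ∣ (k' : ℤ) * ((m * n : ℕ) : ℤ) * e - c)).card : ℝ) -
        ((E₂ : ℝ) - E₁) / (e₀ * (x * y : ℕ)))| ≤
    C * W ^ ε * e₀ * |(c : ℝ)| ^ (1 / 4 : ℝ) *
      (((M₂ : ℝ) - M₁ + 1) * √((A : ℝ) * U * ((E₂ : ℝ) - E₁)) +
        √((M₂ : ℝ) - M₁ + 1) * (A : ℝ) ^ (5 / 4 : ℝ) *
          ((U : ℝ) * (U' : ℝ) ^ (3 / 2 : ℝ) + (U : ℝ) ^ (3 / 4 : ℝ) * (U' : ℝ) ^ (7 / 4 : ℝ)) +
        ((M₂ : ℝ) - M₁ + 1) * (A : ℝ) ^ (3 / 4 : ℝ) *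
          ((U : ℝ) * U' + (U : ℝ) ^ (3 / 4 : ℝ) * (U' : ℝ) ^ (5 / 4 : ℝ)))

/-- (EDV, no hypotheses.) From `n` to `e = vk n k / q`. PROOF. `k < n` for `n > a ^ 2 ≥ a`, and `q ∣ vk n k` iff `q ∣ gk n k`. For `q` prime to `k d` the map
`n ↦ e = gk n k / q` is a bijection from the `n` counted by `cn` onto the `e` with `k a ^ 2 - k ^ 2 - 1 < q e ≤ 4 k a ^ 2 - k ^ 2 - 1`,
`k d ∣ q e - x₀`, `x₀ = k ν - k ^ 2 - 1` (then `k ∣ q e + k ^ 2 + 1 = k n`, `n ≡ ν (mod d)`), and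
`q' ∣ k' q e - c`, `c = (k' - k)(k k' - 1)`: indeed `k' gk n k - c = k gk n k'`, and `q'` is prime to `k`. Let
`E₁ = ⌊(k a ^ 2 - k ^ 2 - 1) / P⌋`, `E₂ = ⌊(4 k a ^ 2 - k ^ 2 - 1) / ((1 + η) ^ 2 P)⌋`; `E₁ ≤ E₂` as `(1 + η) ^ 2 ≤ 1.21` and `k ^ 2 + 1 ≤ 2 k a ^ 2`. Every
`e ∈ (E₁, E₂]` satisfies the inequalities for `P < q ≤ (1 + η) ^ 2 P`. The other `e` have `e ≤ E₁`, so
`k n = q e + k ^ 2 + 1 ≤ (1 + η) ^ 2 k a ^ 2 + k ^ 2 + 1` and `n ≤ a ^ 2 + 3 η a ^ 2 + k + 1`, or `e > E₂`, so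
`q e > (4 k a ^ 2 - k ^ 2 - 1) / (1 + η) ^ 2` and `n ≥ 4 a ^ 2 / (1 + η) ^ 2 ≥ 4 a ^ 2 - 8 η a ^ 2`. Second claim:
`- 8 η k a ^ 2 / P - 1 ≤ E₂ - E₁ - 3 k a ^ 2 / q ≤ (k ^ 2 + 1) / P + 1` for `P < q ≤ (1 + η) ^ 2 P`, because `3 k a ^ 2 / q` is between
`3 k a ^ 2 / ((1 + η) ^ 2 P)` and `3 k a ^ 2 / P`; divide by `k d q'`. -/
def StEDV : Prop := ∀ (a d ν k k' : ℕ) (η P : ℝ), 2 ≤ a → 1 ≤ d → ν < d → 1 ≤ k → k ≤ a → 1 ≤ k' → k' ≤ a →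
  0 < η → η ≤ 1 / 10 → 0 < P →
  ∃ E₁ E₂ : ℕ, E₁ ≤ E₂ ∧ (E₂ : ℝ) - E₁ ≤ 4 * k * (a : ℝ) ^ 2 / P ∧
  ∀ q q' : ℕ, P < (q : ℝ) → (q : ℝ) ≤ (1 + η) ^ 2 * P → Nat.Coprime q (k * d) → 1 ≤ q' → Nat.Coprime q' k →
    |(cn a d ν k k' q q' : ℝ) -
      (((Ioc E₁ E₂).filter (fun e : ℕ => ((k * d : ℕ) : ℤ) ∣ (q : ℤ) * e - ((k : ℤ) * ν - (k : ℤ) ^ 2 - 1) ∧
        (q' : ℤ) ∣ (k' : ℤ) * (q : ℤ) * e - ((k' : ℤ) - k) * ((k : ℤ) * k' - 1))).card : ℝ)| ≤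
      (((NN a).filter (fun n : ℕ => ((n : ℝ) ≤ (a : ℝ) ^ 2 + 3 * η * a ^ 2 + k + 1 ∨
        4 * (a : ℝ) ^ 2 - 8 * η * a ^ 2 ≤ n) ∧ q ∣ vk n k ∧ q' ∣ vk n k')).card : ℝ) ∧
    |((E₂ : ℝ) - E₁) / (((k * d : ℕ) : ℝ) * q') - 3 * (a : ℝ) ^ 2 / (d * q * q')| ≤
      (8 * η * k * a ^ 2 / P + ((k : ℝ) ^ 2 + 1) / P + 1) / (((k * d : ℕ) : ℝ) * q')

/-- (BLA, assume `hE : StEDV`, `hX : StBXV`.) One box. PROOF. `P = μ₁ μ₂`; for `m` and `n` in the ranges `P < m n ≤ (1 + η) ^ 2 P`. Replace, in every summand with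
`cd ≠ 0` (then `m n` is prime to `k d`, `x y` is prime to `k`), `cn - 3 a ^ 2 / (d m n x y)` by the bracket of BXV with `e₀ = k d`,
`c = (k' - k)(k k' - 1) ≠ 0` (`k ≠ k'`, `k k' ≥ 2`), `x₀ = k ν - k ^ 2 - 1`; EDV bounds the cost. BXV with `U = U₂`, `be n := 0` for `n ≤ U₁`. -/
def StBLA : Prop := ∀ ε : ℝ, 0 < ε → ∃ C : ℝ, 0 < C ∧ ∀ (a d ν k k' M₁ M₂ U₁ U₂ A U' : ℕ) (η μ₁ μ₂ W : ℝ)
  (al be al' be' : ℕ → ℝ), 2 ≤ a → 1 ≤ d → ν < d → 1 ≤ k → k ≤ a → 1 ≤ k' → k' ≤ a → k ≠ k' →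
  0 < η → η ≤ 1 / 10 → 0 < μ₁ → 0 < μ₂ → M₁ ≤ M₂ → 1 ≤ U₂ → 1 ≤ A → 1 ≤ U' →
  (∀ m ∈ Ioc M₁ M₂, μ₁ < (m : ℝ) ∧ (m : ℝ) ≤ (1 + η) * μ₁) →
  (∀ n ∈ Ioc U₁ U₂, μ₂ < (n : ℝ) ∧ (n : ℝ) ≤ (1 + η) * μ₂) →
  1 ≤ W → (M₂ : ℝ) ≤ W → ((k * d : ℕ) : ℝ) * A * U' ≤ W → (U₂ : ℝ) ≤ W →
  (∀ m, |al m| ≤ 1) → (∀ m, |be m| ≤ 1) → (∀ m, |al' m| ≤ 1) → (∀ m, |be' m| ≤ 1) →
  |∑ m ∈ Ioc M₁ M₂, ∑ n ∈ Ioc U₁ U₂, ∑ x ∈ Ioc (A / 2) A, ∑ y ∈ Ioc (U' / 2) U',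
    cd (k * d) k' m n x y * (al m * be n * al' x * be' y) *
      ((cn a d ν k k' (m * n) (x * y) : ℝ) - 3 * (a : ℝ) ^ 2 / (d * (m * n : ℕ) * (x * y : ℕ)))| ≤
    (∑ m ∈ Ioc M₁ M₂, ∑ n ∈ Ioc U₁ U₂, ∑ x ∈ Ioc (A / 2) A, ∑ y ∈ Ioc (U' / 2) U',
      ((((NN a).filter (fun t : ℕ => ((t : ℝ) ≤ (a : ℝ) ^ 2 + 3 * η * a ^ 2 + k + 1 ∨
        4 * (a : ℝ) ^ 2 - 8 * η * a ^ 2 ≤ t) ∧ (m * n) ∣ vk t k ∧ (x * y) ∣ vk t k')).card : ℝ) +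
        (8 * η * k * a ^ 2 / (μ₁ * μ₂) + ((k : ℝ) ^ 2 + 1) / (μ₁ * μ₂) + 1) /
          (((k * d : ℕ) : ℝ) * (x * y : ℕ)))) +
    C * W ^ ε * (k * d : ℕ) * (|((k' : ℝ) - k) * ((k : ℝ) * k' - 1)|) ^ (1 / 4 : ℝ) *
      (((M₂ : ℝ) - M₁ + 1) * √((A : ℝ) * U₂ * (4 * k * (a : ℝ) ^ 2 / (μ₁ * μ₂))) +
        √((M₂ : ℝ) - M₁ + 1) * (A : ℝ) ^ (5 / 4 : ℝ) *
          ((U₂ : ℝ) * (U' : ℝ) ^ (3 / 2 : ℝ) + (U₂ : ℝ) ^ (3 / 4 : ℝ) * (U' : ℝ) ^ (7 / 4 : ℝ)) +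
        ((M₂ : ℝ) - M₁ + 1) * (A : ℝ) ^ (3 / 4 : ℝ) *
          ((U₂ : ℝ) * U' + (U₂ : ℝ) ^ (3 / 4 : ℝ) * (U' : ℝ) ^ (5 / 4 : ℝ)))

/-- (BLE, assume `hDB : StDB`.) The edges, all boxes together. PROOF. There are at most `11 η a ^ 2 + k + 3` such `t`, and for each of them `vk t k ≥ 1`,
`vk t k' ≥ 1` (as `t > a ^ 2 ≥ 2 a`), both at most `4 a ^ 3`, and the number of `(m, n)` with `m n ∣ v` is at most `τ(v) ^ 2`. -/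
def StBLE : Prop := ∀ ε : ℝ, 0 < ε → ∃ C : ℝ, 0 < C ∧ ∀ (a k k' M N : ℕ) (η : ℝ), 2 ≤ a → 1 ≤ k → k ≤ a →
  1 ≤ k' → k' ≤ a → 0 < η →
  ∑ m ∈ Icc 1 M, ∑ n ∈ Icc 1 N, ∑ x ∈ Icc 1 M, ∑ y ∈ Icc 1 N,
      (((NN a).filter (fun t : ℕ => ((t : ℝ) ≤ (a : ℝ) ^ 2 + 3 * η * a ^ 2 + k + 1 ∨
        4 * (a : ℝ) ^ 2 - 8 * η * a ^ 2 ≤ t) ∧ (m * n) ∣ vk t k ∧ (x * y) ∣ vk t k')).card : ℝ) ≤
    C * (a : ℝ) ^ ε * (η * (a : ℝ) ^ 2 + a)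

/-- (BLV, assume `hA : StBLA`, `hL : StBLE`.) The quadrilinear form. PROOF. Let `η = a ^ (- δ / 10)`; for the finitely many `a` with `η > 1 / 10` or `a < 2` the bound
is trivial with a large `C` (the left side is at most `8 a ^ 8`). Let `μ_i = (1 + η) ^ (i - 1)`, `i ≥ 0`. Divide the ranges of `m` and `n` into
the parts `μ_i < m ≤ μ_{i+1}`, `μ_j < n ≤ μ_{j+1}` (`M₁ = ⌊μ_i⌋`, `M₂ = min(⌊μ_{i+1}⌋, ⌊a ^ (1 - δ)⌋)`, the same for `n` with `a ^ (1/10 - δ)`),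
`0 ≤ i, j ≤ C a ^ (δ / 10) log a`, and the ranges of `x`, `y` into `Ioc (A / 2) A`, `A = ⌊a ^ (1 - δ)⌋ / 2 ^ s`, and `Ioc (U' / 2) U'`,
`U' = ⌊a ^ (1/10 - δ)⌋ / 2 ^ t` (`s`, `t` `≤ 2 log a`, `A, U' ≥ 1`). Apply BLA with `W = a ^ 2` to each part (`1 + η ≤ 1.1`, so
`1 / (μ₁ μ₂) ≤ 1.21 / (m n)`). (1) The edges, all parts together: BLE, `≤ C a ^ (2 - δ / 10 + ε')`. (2) The terms
`(8 η k a ^ 2 / P + (k ^ 2 + 1) / P + 1) / (k d x y)`: in total at most `(10 η a ^ 2 + 3 a) (1 + log a) ^ 4 + a ^ (11/10) (1 + log a) ^ 2`. (3) BXV-terms for one part: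
`M₂ - M₁ + 1 ≤ μ₁ + 2 ≤ 3 max(μ₁, 1)`, `U₂ ≤ 2 μ₂` if the part is not empty: `(M₂ - M₁ + 1) √(A U₂ 4 k a ^ 2 / (μ₁ μ₂)) ≤
C √k a √(A max(μ₁, 1)) ≤ C √k a ^ (2 - δ)` (`μ₁ ≥ 1 / 1.1`); `√(M₂ - M₁ + 1) A ^ (5/4) (U U' ^ (3/2) + U ^ (3/4) U' ^ (7/4)) ≤
C a ^ ((7/4)(1 - δ) + (5/2)(1/10 - δ)) ≤ C a ^ (2 - 4 δ)`; `(M₂ - M₁ + 1) A ^ (3/4) (U U' + ...) ≤ C a ^ (39/20)`. The factor
`C W ^ ε' k d |c| ^ (1/4)` is at most `C a ^ (2 ε' + 3 δ / 100)` and `√k ≤ a ^ (δ / 200)`; the number of parts is at most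
`C a ^ (δ / 5) (1 + log a) ^ 4`: total `≤ C a ^ (2 - δ / 2)`. -/
def StBLV : Prop := ∀ δ : ℝ, 0 < δ → δ ≤ 1 / 100 → ∃ C : ℝ, 0 < C ∧ ∀ (a d ν k k' : ℕ)
  (al be al' be' : ℕ → ℝ), 1 ≤ a → 1 ≤ d → ν < d → 1 ≤ k → 1 ≤ k' → k ≠ k' →
  (k : ℝ) ≤ (a : ℝ) ^ (δ / 100) → (k' : ℝ) ≤ (a : ℝ) ^ (δ / 100) → (d : ℝ) ≤ (a : ℝ) ^ (δ / 100) →
  (∀ m, |al m| ≤ 1) → (∀ m, |be m| ≤ 1) → (∀ m, |al' m| ≤ 1) → (∀ m, |be' m| ≤ 1) →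
  |∑ m ∈ Icc 1 ⌊(a : ℝ) ^ (1 - δ)⌋₊, ∑ n ∈ Icc 1 ⌊(a : ℝ) ^ (1 / 10 - δ)⌋₊,
    ∑ x ∈ Icc 1 ⌊(a : ℝ) ^ (1 - δ)⌋₊, ∑ y ∈ Icc 1 ⌊(a : ℝ) ^ (1 / 10 - δ)⌋₊,
      cd (k * d) k' m n x y * (al m * be n * al' x * be' y) *
        ((cn a d ν k k' (m * n) (x * y) : ℝ) - 3 * (a : ℝ) ^ 2 / (d * (m * n : ℕ) * (x * y : ℕ)))| ≤
    C * (a : ℝ) ^ (2 - δ / 20)

/-! ## V. The variance over `n` -/

/-- (PTB, assume `hDB : StDB`.) Pointwise bounds. PROOF. `n > a ^ 2 ≥ 2 a`, so `1 ≤ vk n k ≤ 4 a ^ 3`, `τ(vk n k) ≤ C a ^ ε'`. `|tk|` is at most the number of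
the sets `D ∈ fm i a θ u` all of whose (prime) elements divide `vk n k`; `D ↦ ∏ D` is injective and gives a divisor: at most `τ(vk n k)`.
`|PP| ≤ T B ^ 2 #{(m, n) : m ∣ v, n ∣ v} ≤ T B ^ 2 τ(v) ^ 2`; `|PC| ≤ T ^ 2 B ^ 4 τ(v) ^ 2 τ(v') ^ 2` (`0 ≤ cd ≤ 1`). -/
def StPTB : Prop := ∀ ε : ℝ, 0 < ε → ∃ C : ℝ, 1 ≤ C ∧ ∀ a k n : ℕ, 2 ≤ a → 1 ≤ k → k ≤ a → n ∈ NN a →
  k < n ∧ 1 ≤ vk n k ∧ ((vk n k).divisors.card : ℝ) ≤ C * (a : ℝ) ^ ε ∧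
  (∀ (i u : ℕ) (θ : ℝ), |tk i a θ u n k| ≤ C * (a : ℝ) ^ ε) ∧
  (∀ (T : ℕ) (M N B : ℝ) (al be : ℕ → ℕ → ℝ), (∀ t m, |al t m| ≤ B ∧ |be t m| ≤ B) →
    |PP T M N al be (vk n k)| ≤ T * B ^ 2 * (C * (a : ℝ) ^ ε) ∧
    ∀ k' : ℕ, 1 ≤ k' → k' ≤ a → |PC T M N al be k k' n| ≤ (T : ℝ) ^ 2 * B ^ 4 * (C * (a : ℝ) ^ ε))

/-- (SGL, no hypotheses.) PROOF. `|NN a| = 3 a ^ 2`. A class modulo `D` contains between `3 a ^ 2 / D - 1` and `3 a ^ 2 / D + 1` of the `n ∈ NN a`. For `q` prime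
to `k`: `q ∣ vk n k` iff `k n ≡ k ^ 2 + 1 (mod q)` (`dvd_vk`), one class modulo `q`; with `n % d = ν` one class modulo `d q`. If a prime
divides `q` and `k` it divides `vk n k + 1 = k (n - k)`. -/
def StSGL : Prop := ∀ (a d ν k q : ℕ), 2 ≤ a → 1 ≤ d → ν < d → 1 ≤ k → k ≤ a → 1 ≤ q →
  |(((NN a).filter (fun n => n % d = ν)).card : ℝ) - 3 * (a : ℝ) ^ 2 / d| ≤ 1 ∧
  (Nat.Coprime q d → Nat.Coprime q k →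
    |(((NN a).filter (fun n => n % d = ν ∧ q ∣ vk n k)).card : ℝ) - 3 * (a : ℝ) ^ 2 / (d * q)| ≤ 1) ∧
  (¬ Nat.Coprime q k → ∀ n ∈ NN a, ¬ q ∣ vk n k)

/-- (CLS, no hypotheses.) PROOF. For `p ∈ D`: if `p ∣ k` the condition `p ∣ gk n k` is impossible, otherwise it says `n ≡ (k ^ 2 + 1) / k (mod p)`; the same for
`p ∈ D'`. So for every `p ∈ D ∪ D'` the conditions modulo `p` are impossible or say that `n` is in one class modulo `p`. Chinese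
remainder theorem (induction over the set `D ∪ D'`, or `Nat.chineseRemainderOfFinset`). -/
def StCLS : Prop := ∀ (D D' : Finset ℕ) (k k' : ℕ), (∀ p ∈ D ∪ D', p.Prime) →
  (∀ n : ℕ, ¬ ((∀ p ∈ D, (p : ℤ) ∣ gk n k) ∧ (∀ p ∈ D', (p : ℤ) ∣ gk n k'))) ∨
  ∃ ν < ∏ p ∈ D ∪ D', p, ∀ n : ℕ, ((∀ p ∈ D, (p : ℤ) ∣ gk n k) ∧ (∀ p ∈ D', (p : ℤ) ∣ gk n k')) ↔
    n % (∏ p ∈ D ∪ D', p) = ν

/-- (RST, no hypotheses.) PROOF. Expand the product of the two sums `PP`. A summand with `al t m * be t l * al s x * be s y ≠ 0`,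
`m l ∣ vk n k`, `x y ∣ vk n k'` has `cd k k' m l x y = 1`: all primes dividing `m l x y` are `≥ z`, and `m`, `l`, `x`, `y` are squarefree (`Rg`). A common prime of `m l`
and `k` divides `vk n k + 1 = k (n - k)` and `vk n k`: impossible. A common prime `p` of `x` and `y` has `p ^ 2 ∣ vk n k'` (excluded by `n ∉ BD`), so `x y` is
squarefree. A prime `p ∣ x y` divides `vk n k'`, so it does not divide `k'`, and `p ∣ k` or `p ∣ m l ∣ vk n k` are excluded by `n ∉ BD`. -/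
def StRST : Prop := ∀ (a k k' n T : ℕ) (z M N B : ℝ) (al be : ℕ → ℕ → ℝ), 2 ≤ a → 1 ≤ k → k ≤ a →
  1 ≤ k' → k' ≤ a → n ∈ NN a → n ∉ BD a z k k' → Sup a z B al be →
  PP T M N al be (vk n k) * PP T M N al be (vk n k') = PC T M N al be k k' n

/-- (BAD, assume `hDB : StDB`.) PROOF. `z = a ^ θ`. (1) `p ^ 2 ∣ vk n k`, `z ≤ p ≤ a`: `p ∤ k`, so `n` is in one class modulo `p ^ 2`: at most
`∑_{p ≥ z} (3 a ^ 2 / p ^ 2 + 1) ≤ 6 a ^ 2 / z + a` numbers (`∑_{m ≥ z} 1 / m ^ 2 ≤ 2 / z`). `p > a`: `vk n k = p ^ 2 t`, `t < 4 k`, `p ≤ 2 a √k`, and `(t, p)` determines `n`: at most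
`8 a k ^ (3/2) ≤ 8 a ^ (23/20)` numbers. (2) `p ∣ vk n k`, `p ∣ vk n k'`: `p` divides `k gk n k' - k' gk n k = (k - k')(k k' - 1) ≠ 0`, which has at most
`C a ^ (ε / 2)` prime divisors; for each (`p ∤ k`) at most `3 a ^ 2 / z + 1` numbers `n`. (3) `p ∣ k`, `p ∣ vk n k'`: at most `τ(k)` primes, `p ∤ k'`, the same
count. (`2 - θ ≥ 19 / 10`.) -/
def StBAD : Prop := ∀ θ ε : ℝ, 0 < θ → θ ≤ 1 / 10 → 0 < ε → ∃ C : ℝ, 0 < C ∧ ∀ a k k' : ℕ, 2 ≤ a → 1 ≤ k →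
  1 ≤ k' → k ≠ k' → (k : ℝ) ≤ (a : ℝ) ^ (1 / 10 : ℝ) → (k' : ℝ) ≤ (a : ℝ) ^ (1 / 10 : ℝ) →
  ((SQ a ((a : ℝ) ^ θ) k).card : ℝ) ≤ C * (a : ℝ) ^ (2 - θ + ε) ∧
  ((BD a ((a : ℝ) ^ θ) k k').card : ℝ) ≤ C * (a : ℝ) ^ (2 - θ + ε)

/-- (MUD, no hypotheses.) Differences of the main terms. PROOF. Let `L = 1 + log a ≥ ∑_{m ≤ a} 1 / m`. First claim clear. If `al t m * be t l ≠ 0` and `m l` is
not prime to `k` there is a prime `p ≥ z`, `p ∣ k`, `p ∣ m` or `p ∣ l`: these terms contribute at most `B ^ 2 ∑_{p ∣ k, p ≥ z} 2 L ^ 2 / p ≤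
B ^ 2 (2 / z) (2 L) L ^ 2` (`k ≤ a` has at most `log₂ a ≤ 2 L` prime divisors). Third claim: `MU ^ 2` is the sum `MC` without the factor `cd`; if the coefficient is
`≠ 0` and `cd = 0` there is a prime `p ≥ z` with (`p ∣ m l` and `p ∣ k`) or (`p ∣ x` and `p ∣ y`; `x`, `y` are squarefree) or (`p ∣ x y` and `p ∣ k`) or
(`p ∣ x y` and `p ∣ k'`) or (`p ∣ x y` and `p ∣ m l`): at most `B ^ 4 L ^ 4 (2 ω(k) + 2 ω(k) + 2 ω(k')) / z + B ^ 4 L ^ 4 5 ∑_{p ≥ z} 1 / p ^ 2`, and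
`∑_{m ≥ z} 1 / m ^ 2 ≤ 2 / z`. (`M`, `N ≤ a`, and `T ^ 2` pairs `(t, s)`.) -/
def StMUD : Prop := ∃ C : ℝ, 0 < C ∧ ∀ (a k k' T : ℕ) (z M N B : ℝ) (al be : ℕ → ℕ → ℝ), 2 ≤ a → 1 ≤ z →
  1 ≤ k → k ≤ a → 1 ≤ k' → k' ≤ a → M ≤ a → N ≤ a → Sup a z B al be →
  |MU T M N al be| ≤ T * B ^ 2 * (1 + Real.log a) ^ 2 ∧
  |MK T M N al be k - MU T M N al be| ≤ C * T * B ^ 2 * (1 + Real.log a) ^ 3 / z ∧
  |MC T M N al be k k' - MU T M N al be ^ 2| ≤ C * (T : ℝ) ^ 2 * B ^ 4 * (1 + Real.log a) ^ 5 / z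

/-- (EXP, assume `hB : StBLV`, `hS : StSGL`.) PROOF. `M = a ^ (1 - δ)`, `N = a ^ (1/10 - δ)`. Interchange the sums. If the coefficient of `(m, l, x, y)` is `≠ 0`, all primes
dividing `m l x y` are `≥ a ^ θ`, so `m l x y` is prime to `d` and `cd k k' m l x y = cd (k * d) k' m l x y`; the sum over `n` is
`cn a d ν k k' (m * l) (x * y)`. BLV with `al t / B`, ... for the `T ^ 2` pairs `(t, s)` (if `B = 0` all is `0`). Second claim: SGL for `q = m l`, error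
`1` for each of the at most `T M N ≤ T a ^ (11/10)` triples. -/
def StEXP : Prop := ∀ δ : ℝ, 0 < δ → δ ≤ 1 / 100 → ∃ C : ℝ, 0 < C ∧ ∀ (a d ν k k' T : ℕ) (θ B : ℝ)
  (al be : ℕ → ℕ → ℝ), 2 ≤ a → 1 ≤ d → ν < d → 1 ≤ k → 1 ≤ k' → k ≠ k' →
  (k : ℝ) ≤ (a : ℝ) ^ (δ / 100) → (k' : ℝ) ≤ (a : ℝ) ^ (δ / 100) → (d : ℝ) ≤ (a : ℝ) ^ (δ / 100) →
  (∀ p : ℕ, p.Prime → p ∣ d → (p : ℝ) < (a : ℝ) ^ θ) → Sup a ((a : ℝ) ^ θ) B al be →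
  |∑ n ∈ (NN a).filter (fun n => n % d = ν),
      PC T ((a : ℝ) ^ (1 - δ)) ((a : ℝ) ^ (1 / 10 - δ)) al be k k' n -
    3 * (a : ℝ) ^ 2 / d * MC T ((a : ℝ) ^ (1 - δ)) ((a : ℝ) ^ (1 / 10 - δ)) al be k k'| ≤
    C * (T : ℝ) ^ 2 * B ^ 4 * (a : ℝ) ^ (2 - δ / 20) ∧
  |∑ n ∈ (NN a).filter (fun n => n % d = ν),
      PP T ((a : ℝ) ^ (1 - δ)) ((a : ℝ) ^ (1 / 10 - δ)) al be (vk n k) -
    3 * (a : ℝ) ^ 2 / d * MK T ((a : ℝ) ^ (1 - δ)) ((a : ℝ) ^ (1 / 10 - δ)) al be k| ≤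
    T * B ^ 2 * (a : ℝ) ^ (11 / 10 : ℝ)

open Classical in
/-- the density of a pair of weights -/
def GG (i a : ℕ) (θ : ℝ) (u k k' : ℕ) : ℝ := ∑ D ∈ fm i a θ u, ∑ D' ∈ fm i a θ u,
  (-1 : ℝ) ^ (D.card + D'.card) *
    (if ∃ n : ℕ, (∀ p ∈ D, (p : ℤ) ∣ gk n k) ∧ (∀ p ∈ D', (p : ℤ) ∣ gk n k') then
      1 / ((∏ p ∈ D ∪ D', p : ℕ) : ℝ) else 0)

/-- (GBD, assume `hM : StMT`.) PROOF. `|GG| ≤ ∑_{D, D' ⊆ Q} ∏_{p ∈ D ∪ D'} 1 / p = ∏_{p ∈ Q} (1 + 3 / p)`, `Q = Qs a θ` (every `p` is in neither, one or both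
of the sets), at most `exp(3 ∑_{p ≤ a} 1 / p) ≤ exp(3 (log log a + C))`. -/
def StGBD : Prop := ∃ C : ℝ, 0 < C ∧ ∀ (i a u k k' : ℕ) (θ : ℝ), 3 ≤ a → 0 < θ → θ ≤ 1 →
  |GG i a θ u k k'| ≤ C * Real.log a ^ 3

/-- (OFA, assume `hE : StEXP`, `hC : StCLS`, `hS : StSGL`, `hLv : StLevel`.) Expansion of the two weights. PROOF. `StLevel u` gives `B₀`; every `D ∈ fm i a θ u` consists of primes
`< a ^ θ` and has `∏ D ≤ w ^ B₀`, `w = ⌊a ^ θ⌋₊ ≥ 1`. `θ₁ = δ / (1000 (B₀ + 1))`. Expand `tk` and `tk'`: a sum over `(D, D')` with signs of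
`∑_n [conditions of D at k and of D' at k'] F(n)`; by CLS the conditions are impossible or say `n % d = ν`, `d = ∏ (D ∪ D') ≤ a ^ (2 θ B₀) ≤ a ^ (δ / 500)`
(`k < n` for `n ∈ NN a`). EXP (for the third claim with `k` and `k'` interchanged) and SGL. The number of pairs `(D, D')` is at most `a ^ (2 θ B₀) ≤ a ^ (δ / 500)`
(`D ↦ ∏ D` is injective). -/
def StOFA : Prop := ∀ (δ : ℝ) (u : ℕ), 0 < δ → δ ≤ 1 / 100 → ∃ θ₁ : ℝ, 0 < θ₁ ∧ θ₁ ≤ 1 / 10 ∧ ∀ θ : ℝ, 0 < θ → θ ≤ θ₁ →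
  ∃ C : ℝ, 0 < C ∧ ∀ (i a k k' T : ℕ) (B : ℝ) (al be : ℕ → ℕ → ℝ), 2 ≤ a → 1 ≤ k → 1 ≤ k' → k ≠ k' →
  (k : ℝ) ≤ (a : ℝ) ^ (δ / 100) → (k' : ℝ) ≤ (a : ℝ) ^ (δ / 100) → Sup a ((a : ℝ) ^ θ) B al be →
  |∑ n ∈ NN a, tk i a θ u n k * tk i a θ u n k' *
      PC T ((a : ℝ) ^ (1 - δ)) ((a : ℝ) ^ (1 / 10 - δ)) al be k k' n -
    3 * (a : ℝ) ^ 2 * GG i a θ u k k' *
      MC T ((a : ℝ) ^ (1 - δ)) ((a : ℝ) ^ (1 / 10 - δ)) al be k k'| ≤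
    C * (T : ℝ) ^ 2 * B ^ 4 * (a : ℝ) ^ (2 - δ / 40) ∧
  |∑ n ∈ NN a, tk i a θ u n k * tk i a θ u n k' *
      PP T ((a : ℝ) ^ (1 - δ)) ((a : ℝ) ^ (1 / 10 - δ)) al be (vk n k) -
    3 * (a : ℝ) ^ 2 * GG i a θ u k k' *
      MK T ((a : ℝ) ^ (1 - δ)) ((a : ℝ) ^ (1 / 10 - δ)) al be k| ≤
    C * T * B ^ 2 * (a : ℝ) ^ (12 / 10 : ℝ) ∧
  |∑ n ∈ NN a, tk i a θ u n k * tk i a θ u n k' *
      PP T ((a : ℝ) ^ (1 - δ)) ((a : ℝ) ^ (1 / 10 - δ)) al be (vk n k') -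
    3 * (a : ℝ) ^ 2 * GG i a θ u k k' *
      MK T ((a : ℝ) ^ (1 - δ)) ((a : ℝ) ^ (1 / 10 - δ)) al be k'| ≤
    C * T * B ^ 2 * (a : ℝ) ^ (12 / 10 : ℝ) ∧
  |∑ n ∈ NN a, tk i a θ u n k * tk i a θ u n k' - 3 * (a : ℝ) ^ 2 * GG i a θ u k k'| ≤ C * (a : ℝ)

/-- (OFF, assume `hA : StOFA`, `hR : StRST`, `hP : StPTB`, `hB : StBAD`, `hM : StMUD`, `hG : StGBD`.) PROOF. `θ₁` from OFA, `κ = min(δ / 50, θ / 2)`. Write `P = PP(vk n k)`,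
`P' = PP(vk n k')`, `μ = MU`. `(P - μ)(P' - μ) = P P' - μ P - μ P' + μ ^ 2`. For `n ∉ BD` replace `P P'` by `PC` (RST); the `n ∈ BD` cost at most
`|BD| C a ^ ε' ≤ C a ^ (2 - θ + 2 ε')` (BAD, PTB; `ε' = θ / 20`). By OFA the sum is `3 a ^ 2 GG (MC - μ MK(k) - μ MK(k') + μ ^ 2)` up to `C a ^ (2 - δ / 40)` times powers of
`log a` (MUD: `|μ| ≤ T B ^ 2 L ^ 2`), and `MC - μ MK(k) - μ MK(k') + μ ^ 2 = (MC - μ ^ 2) - μ (MK(k) - μ) - μ (MK(k') - μ)` is at most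
`C L ^ 5 a ^ (- θ)`, `|GG| ≤ C (log a) ^ 3`. `C` depends on `T`, `B`; it is absorbed by `a ≥ a₀`. -/
def StOFF : Prop := ∀ (δ : ℝ) (u : ℕ), 0 < δ → δ ≤ 1 / 100 → ∃ θ₁ : ℝ, 0 < θ₁ ∧ θ₁ ≤ 1 / 10 ∧ ∀ θ : ℝ, 0 < θ → θ ≤ θ₁ →
  ∃ κ : ℝ, 0 < κ ∧ ∀ (T : ℕ) (B : ℝ), ∃ a₀ : ℕ, 2 ≤ a₀ ∧ ∀ (i a k k' : ℕ) (al be : ℕ → ℕ → ℝ), a₀ ≤ a →
  1 ≤ k → 1 ≤ k' → k ≠ k' → (k : ℝ) ≤ (a : ℝ) ^ (δ / 100) → (k' : ℝ) ≤ (a : ℝ) ^ (δ / 100) →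
  Sup a ((a : ℝ) ^ θ) B al be →
  |∑ n ∈ NN a, tk i a θ u n k * tk i a θ u n k' *
      ((PP T ((a : ℝ) ^ (1 - δ)) ((a : ℝ) ^ (1 / 10 - δ)) al be (vk n k) -
        MU T ((a : ℝ) ^ (1 - δ)) ((a : ℝ) ^ (1 / 10 - δ)) al be) *
      (PP T ((a : ℝ) ^ (1 - δ)) ((a : ℝ) ^ (1 / 10 - δ)) al be (vk n k') -
        MU T ((a : ℝ) ^ (1 - δ)) ((a : ℝ) ^ (1 / 10 - δ)) al be))| ≤ (a : ℝ) ^ (2 - κ)

/-- (VAR, assume `hO : StOFF`, `hP : StPTB`, `hM : StMUD`.) PROOF. Expand the square. The `K` diagonal terms: `|NN a| = 3 a ^ 2`, and `|tk| |PP - MU| ≤ C a ^ (ε / 4)` with `C`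
depending on `T`, `B` (PTB, MUD). The other `K ^ 2 - K` terms: OFF. -/
def StVAR : Prop := ∀ (δ : ℝ) (u : ℕ), 0 < δ → δ ≤ 1 / 100 → ∃ θ₁ : ℝ, 0 < θ₁ ∧ θ₁ ≤ 1 / 10 ∧ ∀ θ : ℝ, 0 < θ → θ ≤ θ₁ →
  ∃ κ : ℝ, 0 < κ ∧ ∀ (T : ℕ) (B ε : ℝ), 0 < ε → ∃ a₀ : ℕ, 2 ≤ a₀ ∧ ∀ (i a K : ℕ) (al be : ℕ → ℕ → ℝ), a₀ ≤ a →
  1 ≤ K → 30 * (K : ℝ) ≤ (a : ℝ) ^ (δ / 100) → Sup a ((a : ℝ) ^ θ) B al be →
  ∑ n ∈ NN a, (∑ j ∈ Icc 1 K, tk i a θ u n (30 * j) *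
      (PP T ((a : ℝ) ^ (1 - δ)) ((a : ℝ) ^ (1 / 10 - δ)) al be (vk n (30 * j)) -
        MU T ((a : ℝ) ^ (1 - δ)) ((a : ℝ) ^ (1 / 10 - δ)) al be)) ^ 2 ≤
    K * (a : ℝ) ^ (2 + ε) + (K : ℝ) ^ 2 * (a : ℝ) ^ (2 - κ)

/-- (SQX, assume `hB : StBAD`.) PROOF. `∑_{n ∈ NN a} (K - |Jn|) = ∑_{j ≤ K} |SQ a (a ^ θ) (30 j)| ≤ K C a ^ (2 - θ + θ / 10)` (BAD with `k' = k + 1`; `k + 1 ≤ a ^ (1/10)`), so with `κ = θ / 3`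
the number of `n` with `K - |Jn| > K a ^ (- κ)` is at most `C a ^ (2 - θ + θ / 10 + θ / 3) ≤ a ^ (2 - κ)`. -/
def StSQX : Prop := ∀ θ : ℝ, 0 < θ → θ ≤ 1 / 10 → ∃ κ : ℝ, 0 < κ ∧ ∃ a₀ : ℕ, ∀ a K : ℕ, a₀ ≤ a → 1 ≤ K →
  30 * (K : ℝ) + 1 ≤ (a : ℝ) ^ (1 / 10 : ℝ) → ∃ E : Finset ℕ, (E.card : ℝ) ≤ (a : ℝ) ^ (2 - κ) ∧
  ∀ n ∈ NN a, n ∉ E → (((Icc 1 K) \ Jn ((a : ℝ) ^ θ) K n).card : ℝ) ≤ K * (a : ℝ) ^ (-κ)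

/-- (EXC, assume `hV : StVAR`, `hQ : StSQX`, `hP : StPTB`, `h5 : StC5`, `h6 : StC6`.) PROOF. `K = ⌊a ^ κ₀⌋₊`, `M = a ^ (1 - δ)`, `N = a ^ (1/10 - δ)`, `z = a ^ θ`; `30 K + 1 ≤ a ^ (δ / 100)` for large `a` as
`κ₀ < δ / 100`. `Dec` gives `al`, `be` with `Sup` (and supports in `[1, M]`, `[1, N]`). For `j ∈ Jn` the divisor sum is `PP T M N al be (vk n (30 j))` (C5). So
`∑_{j ∈ Jn} tk ∑_q l q - (∑_{j ≤ K} tk) ms a l` is `∑_{j ≤ K} tk (PP - MU)` minus `∑_{j ∉ Jn} tk PP` minus `(∑_{j ≤ K} tk)(ms a l - MU)`. The third part is at most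
`K C a ^ ε' (2 / z) T B ^ 2 (1 + 2 log a) ^ 2` by C6; the second one at most `K a ^ (- κ') C a ^ ε'` outside the exceptional set of SQX (PTB). The first: by VAR and
Chebyshev's inequality it is at most `K a ^ (- κ'')` outside a set of size at most `(K a ^ (2 + ε') + K ^ 2 a ^ (2 - κ')) / (K a ^ (- κ'')) ^ 2 ≤ C a ^ (2 + ε' + 2 κ'' - κ₀) + a ^ (2 - κ' + 2 κ'')`.
Take `κ`, `κ''`, `ε'` small compared with `κ'`, `κ₀`, `θ` (they do not depend on `T`, `B`), and `K ≤ a ^ κ₀`. -/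
def StEXC : Prop := ∀ (δ : ℝ) (u : ℕ), 0 < δ → δ ≤ 1 / 100 → ∃ θ₁ : ℝ, 0 < θ₁ ∧ θ₁ ≤ 1 / 10 ∧ ∀ θ : ℝ, 0 < θ → θ ≤ θ₁ →
  ∀ κ₀ : ℝ, 0 < κ₀ → κ₀ ≤ δ / 200 → ∃ κ : ℝ, 0 < κ ∧ ∀ (T : ℕ) (B : ℝ), ∃ a₀ : ℕ, ∀ (i a : ℕ) (l : ℕ → ℝ), a₀ ≤ a →
    Dec (Rg a ((a : ℝ) ^ θ)) ((a : ℝ) ^ (1 - δ)) ((a : ℝ) ^ (1 / 10 - δ)) T B l →
    ∃ E : Finset ℕ, (E.card : ℝ) ≤ (a : ℝ) ^ (2 - κ) ∧ ∀ n ∈ NN a, n ∉ E →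
      |∑ j ∈ Jn ((a : ℝ) ^ θ) ⌊(a : ℝ) ^ κ₀⌋₊ n, tk i a θ u n (30 * j) *
          ∑ q ∈ (vk n (30 * j)).divisors, l q -
        (∑ j ∈ Icc 1 ⌊(a : ℝ) ^ κ₀⌋₊, tk i a θ u n (30 * j)) * ms a l| ≤ (a : ℝ) ^ (κ₀ - κ)

/-! ## C. The local factors -/

/-- (RTS, no hypotheses.) PROOF. `gk n (30 r) = 30 n r - 900 r ^ 2 - 1`; `p ∤ 900`. If `r ≠ s` are roots modulo `p` then `p ∣ (r - s)(30 n - 900 (r + s))`, so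
`s ≡ (30 n - 900 r) / 900` is determined by `r`: at most two roots. (`(range p)` filtered: choose `r`; every other root is the residue of that number.) -/
def StRTS : Prop := ∀ n p : ℕ, p.Prime → 7 ≤ p → rn n p ≤ 2

/-- (LOC, assume `hLv : StLevel`.) PROOF. `B₀` from `StLevel u`, `w = ⌊a ^ θ⌋₊ ≥ 1`. For `D ∈ fm i a θ u`: the number of `j ∈ Ioc 0 K` with `p ∣ gk n (30 j)` for all
`p ∈ D`, i.e. `j % p ∈ {r < p : p ∣ gk n (30 r)}`, differs from `K ∏_{p ∈ D} gn n p` by at most `∏_{p ∈ D} rn n p ≤ ∏ D ≤ w ^ B₀`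
(`Pool.Agent.Helper9.SU.cntT_ALL` in `Helper9/SU/M_ALL.lean` with `E = 0`, `M = 1`). `D ↦ ∏ D` is injective on the sets of primes, so there are at most `w ^ B₀` sets `D`. -/
def StLOC : Prop := ∀ u : ℕ, ∃ B₀ : ℕ, ∀ (i a n K : ℕ) (θ : ℝ), 1 ≤ a → 0 < θ →
  |∑ j ∈ Icc 1 K, tk i a θ u n (30 * j) - K * TK i a θ u n| ≤ (⌊(a : ℝ) ^ θ⌋₊ : ℝ) ^ (2 * B₀)

/-- (C8P, assume `hB : StBonf`, `hF : StFLmain`, `h1 : StRTS`.) PROOF. As `Helper41/TW/M_C8.lean`: `StFLmain` with `κ = 3`, `ε = 1 / 1000` gives the even number `u`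
(`0 ≤ gn ≤ 2 / p ≤ 1 / 2` for `p ≥ 7`); `StBonf` with `g p = 1[p ∣ gk n k]` (`∏ (1 - g p) = qk`) and with `g = gn n`. -/
def StC8P : Prop := ∃ u : ℕ, Even u ∧ ∀ (a n : ℕ) (θ : ℝ), 2 ≤ a → 0 < θ →
  (∀ k : ℕ, tk 1 a θ u n k ≤ qk a θ n k ∧ qk a θ n k ≤ tk 0 a θ u n k) ∧
  ∏ p ∈ Qs a θ, (1 - gn n p) ≤ TK 0 a θ u n ∧
  TK 0 a θ u n ≤ (1 + 1 / 1000) * ∏ p ∈ Qs a θ, (1 - gn n p) ∧
  (1 - 1 / 1000) * ∏ p ∈ Qs a θ, (1 - gn n p) ≤ TK 1 a θ u n ∧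
  TK 1 a θ u n ≤ ∏ p ∈ Qs a θ, (1 - gn n p)

/-- (VLP, assume `hM : StMT`, `h1 : StRTS`.) PROOF. As `Helper82/TW/M_VL.lean`: `1 - gn n p ≥ 1 - 3 / p`. -/
def StVLP : Prop := ∃ c : ℝ, 0 < c ∧ ∀ (a n : ℕ) (θ : ℝ), 3 ≤ a → 0 < θ → θ ≤ 1 →
  c / Real.log a ^ 3 ≤ ∏ p ∈ Qs a θ, (1 - gn n p)

/-! ## D. the recursion -/

/-- (D5P, assume `h1 : StD1`, `h2 : StD2`, `h3 : StD3`, `h4 : StD4`.) The table. PROOF. Exactly as `Helper74/TW/M_D5.lean` with `K = 128` instead of `16` and with the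
denominator `10 ^ 8` instead of `10 ^ 6`: `40 e^(-14) < 0.0000334`, start values `100003340`, `99996660`, top index `14 · 128 - 1 = 1791`, the upper bounds for
`i = 1791, ..., 384` (a list of length `1408`, start `300000000`), the lower bounds for `i = 1791, ..., 256` (length `1536`, start `0`), `eU` with `384 = 3 · 128` for `i = 383, ..., 128`
(256 values; `i - 128` for `i = 256`), `drop 128`. After 20 passes `U_384 ≤ 119470000`, `U_512 ≤ 102350000` (position `1279`), `L_512 ≥ 97640000` (position `1279`);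
the check by `decide +kernel` takes less than a minute:
`def pU` and `def pL` as there; `eU q i (n + 1) = ((384 * q + i - 1) / i) :: eU q (i - 1) n`;
`stp v = (pU 1791 100003340 v.1 (v.2.drop 128), pL 1791 99996660 v.2 ((pU 1791 100003340 v.1 (v.2.drop 128) ++ eU ((pU 1791 100003340 v.1 (v.2.drop 128)).getD 1407 0) 383 256).drop 128))`;
`chk v = Nat.ble (v.1.getD 1407 0) 119470000 && Nat.ble (v.1.getD 1279 0) 102350000 && Nat.ble 97640000 (v.2.getD 1279 0)`;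
`chk (itr 20 (List.replicate 1408 300000000, List.replicate 1536 0)) = true` (checked). -/
def StD5P : Prop := ∀ S : ℕ, GUp S 3 (11947 / 10000) ∧ GLo S 4 (9764 / 10000) ∧ GUp S 4 (10235 / 10000)

/-- (D6P, no hypotheses.) PROOF. As `Helper9/TW/M_D6.lean` with `N = 21996 u`, `J = 19679 u`, `z = 5499 u`. `gm j ≤ 1 / j`, and for `z ≤ j < J`:
`1 / (N - j - 1) ≤ (1 + 1 / (2000 u)) / (N - j)` and `(1 / j - 1 / J) / (N - j) = (1 / N)(1 / j) - (1 / J - 1 / N) / (N - j)`. As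
`∑_{z ≤ j < J} 1 / j ≤ log ((J - 1) / (z - 1))` and `∑_{z ≤ j < J} 1 / (N - j) ≥ log ((N - z + 1) / (N - J + 1))` the sum is at most
`(1 + 1 / (2000 u)) 3 z ((1 / N) log ((J - 1) / (z - 1)) - (1 / J - 1 / N) log ((N - z + 1) / (N - J + 1)))`, which tends to
`(3/4) log (19679 / 5499) - 16497 (1 / 19679 - 1 / 21996) log (16497 / 2317) = 0.782905`. -/
def StD6P : Prop := ∃ u₀ : ℕ, ∀ u : ℕ, u₀ ≤ u →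
  ∑ j ∈ Ico (5499 * u) (19679 * u), gm j * (1 - (j : ℝ) / (19679 * u)) *
    (3 * (5499 * u) / (21996 * u - ((j : ℝ) + 1))) ≤ 7831 / 10000

/-- (FSP, assume `hA : StAX`, `h4 : StD4`, `h5 : StD5P`, `h6 : StD6P`.) PROOF. As `Helper49/TW/M_FS.lean`. Let `S = ⌈1.5 / θ⌉`, `u` large, `j0 = ⌊20000 u θ⌋` (`j0 ≤ 200 u`), `ω = 1 / (20000 u)`;
AX with `Nm = S j0` (`S j0 ω ≤ (1.5 / θ + 1) θ ≤ 2`, `S j0 ≥ 21996 u` for large `u`). `LoP` at `(21996 u, 5499 u)`: `μm ≥ (j0 / (5499 u))(0.9764 - η)`; `UpP`: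
`μp ≤ (j0 / (5499 u))(1.0235 + η)`; for `5499 u ≤ j < 19679 u` and `N' = 21996 u - (j + 1) ∈ [2317 u, 16497 u]` D4 (2) (`N' ≤ 3 · 5499 u`, `N' ≥ 3 j0`): `μ_j N' ≤ 3 j0 (1.1947 + η)`. So
`∑ gm j (1 - j / (19679 u)) μ_j ≤ (j0 / (5499 u)) (1.1947 + η) · 0.7831` by D6P, and `0.9764 - 0.002 · 1.0235 - 1.001 · 1.034 · 1.1947 · 0.7831 > 0.005`. -/
def StFSP : Prop := ∀ θ : ℝ, 0 < θ → θ ≤ 1 / 100 → ∃ u j0 : ℕ, 1 ≤ u ∧ 1 ≤ j0 ∧ j0 ≤ 5499 * u ∧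
  (j0 : ℝ) * (1 / (20000 * u)) ≤ θ ∧ ∃ (μm μp : ℝ) (μ : ℕ → ℝ),
    LoP (1 / (20000 * u)) j0 (21996 * u) (5499 * u) μm ∧
    UpP (1 / (20000 * u)) j0 (21996 * u) (5499 * u) μp ∧
    (∀ j ∈ Ico (5499 * u) (19679 * u),
      UpP (1 / (20000 * u)) j0 (21996 * u - (j + 1)) (5499 * u) (μ j)) ∧
    0 < μm - 2 / 1000 * μp - 1001 / 1000 * (10340 / 10000) *
      ∑ j ∈ Ico (5499 * u) (19679 * u), gm j * (1 - (j : ℝ) / (19679 * u)) * μ j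

/-- (PTP, no hypotheses.) Richert's weights. PROOF. As `Helper9/TW/M_PT.lean`. `v` is squarefree. Suppose `Ω(v) ≥ 3`. With `L = 0.98395 log a`:
`∑_{p ∣ v} (1 - log p / L) = Ω(v) - log v / L ≥ 3 - 2.0001 / 0.98395 ≥ 0.96727`. The primes with `p ≥ a ^ 0.98395` contribute at most `0`. The others are in a box `j` with
`5499 u ≤ j < 19679 u` (`0.98395 = 19679 u / (20000 u)`; `p ∤ a`), and there `1 - log p / L ≤ 1 - j / (19679 u)` as `p ≥ a ^ (j / (20000 u))`. So the sum in the hypothesis is at least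
`1.034 · 0.96727 > 1`. -/
def StPTP : Prop := ∀ (u a v : ℕ), 1 ≤ u → 2 ≤ a → 1 ≤ v → (v : ℝ) ≤ (a : ℝ) ^ (2 + 1 / 10000 : ℝ) →
  (∀ p : ℕ, p.Prime → p ∣ v → ¬ p ∣ a ∧ (a : ℝ) ^ (((5499 * u : ℕ) : ℝ) * (1 / (20000 * u))) ≤ (p : ℝ)) →
  (∀ p : ℕ, p.Prime → ¬ p ^ 2 ∣ v) →
  10340 / 10000 * ∑ j ∈ Ico (5499 * u) (19679 * u), (1 - (j : ℝ) / (19679 * u)) *
    (ej a (1 / (20000 * u)) j v : ℝ) < 1 →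
  ArithmeticFunction.cardFactors v ≤ 2

/-! ## F. combination -/

/-- (CAP, assume `hE : StEXC`, `hJ : StWFJ`, `hMB : StMSB`, `hI : StINQ`.) EXC for families of weights; `ω = 1 / (20000 u)`, `θ = j0 ω`, `δ = 1 / 10000`. PROOF. As `Helper54/TW/M_CA.lean`.
`21996 u ω = 11/10 - 2 δ`. (1) `WF` with `M = a ^ (1 - δ)`, `N = a ^ (1/10 - δ)`, and `Sp` implies `Rg` (`p ≥ a ^ (i ω) ≥ a ^ (j0 ω)`), then EXC (`κ₀ ≤ δ / 200`). (2) By WFJ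
(`(j + 1) ω ≤ 19679 u ω ≤ 1 - δ`, `(21996 u - (j + 1)) ω + (j + 1) ω = 11/10 - 2 δ`) the weights `bm a ω j (Lam a)` satisfy the hypothesis of EXC (`B ≥ 0` because a
decomposition exists); INQ gives the divisor sums (`vk n (30 j') ≥ 1` for the `n ∈ NN a`, `j' ≤ K`, as `30 K ≤ a`) and MSB the main term. -/
def StCAP : Prop := ∀ (f : ℕ) (κ₀ : ℝ), 0 < κ₀ → κ₀ ≤ 1 / 10000000 → ∃ θ₁ : ℝ, 0 < θ₁ ∧ ∀ u j0 : ℕ, 1 ≤ u → 1 ≤ j0 →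
  j0 ≤ 5499 * u → (j0 : ℝ) * (1 / (20000 * u)) ≤ θ₁ → ∃ κ : ℝ, 0 < κ ∧
  (∀ (T : ℕ) (B : ℝ) (Lam : ℕ → ℕ → ℝ),
    (∀ᶠ a : ℕ in atTop, WF a (1 / (20000 * u)) j0 (5499 * u) (((21996 * u : ℕ) : ℝ) * (1 / (20000 * u))) T B
      (Lam a)) →
    ∀ᶠ a : ℕ in atTop, ∀ i : ℕ, ∃ E : Finset ℕ, (E.card : ℝ) ≤ (a : ℝ) ^ (2 - κ) ∧ ∀ n ∈ NN a, n ∉ E →
      |∑ j ∈ Jn ((a : ℝ) ^ ((j0 : ℝ) * (1 / (20000 * u)))) ⌊(a : ℝ) ^ κ₀⌋₊ n,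
        tk i a ((j0 : ℝ) * (1 / (20000 * u))) f n (30 * j) * ∑ q ∈ (vk n (30 * j)).divisors, Lam a q -
        (∑ j ∈ Icc 1 ⌊(a : ℝ) ^ κ₀⌋₊, tk i a ((j0 : ℝ) * (1 / (20000 * u))) f n (30 * j)) * ms a (Lam a)| ≤
      (a : ℝ) ^ (κ₀ - κ)) ∧
  (∀ (T : ℕ) (B : ℝ) (Lam : ℕ → ℕ → ℝ) (j' : ℕ), 5499 * u ≤ j' → j' < 19679 * u →
    (∀ᶠ a : ℕ in atTop, WF a (1 / (20000 * u)) j0 (5499 * u)
      (((21996 * u - (j' + 1) : ℕ) : ℝ) * (1 / (20000 * u))) T B (Lam a)) →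
    ∀ᶠ a : ℕ in atTop, ∀ i : ℕ, ∃ E : Finset ℕ, (E.card : ℝ) ≤ (a : ℝ) ^ (2 - κ) ∧ ∀ n ∈ NN a, n ∉ E →
      |∑ j ∈ Jn ((a : ℝ) ^ ((j0 : ℝ) * (1 / (20000 * u)))) ⌊(a : ℝ) ^ κ₀⌋₊ n,
        tk i a ((j0 : ℝ) * (1 / (20000 * u))) f n (30 * j) *
          ((ej a (1 / (20000 * u)) j' (vk n (30 * j)) : ℝ) * ∑ q ∈ (vk n (30 * j)).divisors, Lam a q) -
        (∑ j ∈ Icc 1 ⌊(a : ℝ) ^ κ₀⌋₊, tk i a ((j0 : ℝ) * (1 / (20000 * u))) f n (30 * j)) *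
          ((∑ p ∈ bx a (1 / (20000 * u)) j', (1 : ℝ) / p) * ms a (Lam a))| ≤
      (a : ℝ) ^ (κ₀ - κ))

/-- (C10P, assume `hFS : StFSP`, `hA : StCAP`, `hL : StLOC`, `hV : StVLP`, `h8 : StC8P`, `h9 : StC9`, `hM : StMER`, `hPO : StPOS`.) PROOF. As `Helper74/TW/M_C10.lean`. `f` from C8P (called `u` there),
`B₀` from LOC, `θ₁` from CAP; FSP for `min(θ₁, 1/100, κ₀ / (4 (B₀ + 1)))` gives `u`, `j0` and the weights `Lam⁻`, `Lam⁺`, `Lam_j`; `ω = 1 / (20000 u)`, `θ = j0 ω`. `E` is the union of the exceptional sets of CAP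
for these weights and `i = 0, 1` (at most `C a ^ (2 - κ')` elements, so `κ = κ' / 2`). Let `n ∈ NN a`, `n ∉ E`, `K = ⌊a ^ κ₀⌋₊`. For `j ∈ Jn` use C9 with `I₀ = qk`, `A = ind` at `v = vk n (30 j)`,
`t₀ = tk 0`, `t₁ = tk 1` (C8P), `Am`, `Ap` the divisor sums of `Lam⁻`, `Lam⁺` at `v ≥ 1`, `e i = ej i`, `Aj i = e i ∑ Lam_i ≥ e i A`, `c i = (10340 / 10000)(1 - i / (19679 u)) ≥ 0`. Sum over
`j ∈ Jn` and apply CAP to every sum, then LOC: `∑_{j ≤ K} tk i = K TK i + O(a ^ (2 θ B₀))`, `2 θ B₀ ≤ κ₀ / 2`. With `V = ∏ (1 - gn n p)`, `m^± = ms a (Lam^±)`, `m_i = ms a (Lam_i)`, `G_i = ∑_{p ∈ bx i} 1 / p → gm i` the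
main term is `K (TK₀ m⁻ + (TK₁ - TK₀) m⁺ - ∑ c_i TK₀ G_i m_i)`, `V ≤ TK₀ ≤ 1.001 V`, `TK₁ - TK₀ ≥ - 0.002 V`. As `μp, μ_i ≥ 0` (POS) and the number of FSP is positive, `μm > 0`, so `m⁻ > 0` for large `a`,
and for every `η > 0` the main term is for large `a` at least `K V (μm - 0.002 μp - 1.001 ∑ c_i gm i μ_i - η)`. Choose `η` half of the number of FSP. Finally `V ≥ c / (log a) ^ 3` (VLP), and the errors are at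
most `C a ^ (κ₀ - κ') + C a ^ (κ₀ / 2)`, small compared with `K / (log a) ^ 3`. -/
def StC10P : Prop := ∀ κ₀ : ℝ, 0 < κ₀ → κ₀ ≤ 1 / 10000000 → ∃ u j0 : ℕ, 1 ≤ u ∧ 1 ≤ j0 ∧ j0 ≤ 5499 * u ∧
  ∃ κ c : ℝ, 0 < κ ∧ 0 < c ∧ ∃ a₀ : ℕ, ∀ a : ℕ, a₀ ≤ a → ∃ E : Finset ℕ, (E.card : ℝ) ≤ (a : ℝ) ^ (2 - κ) ∧
  ∀ n ∈ NN a, n ∉ E → c * (a : ℝ) ^ κ₀ / Real.log a ^ 3 ≤
    ∑ j ∈ Jn ((a : ℝ) ^ ((j0 : ℝ) * (1 / (20000 * u)))) ⌊(a : ℝ) ^ κ₀⌋₊ n,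
      qk a ((j0 : ℝ) * (1 / (20000 * u))) n (30 * j) *
      ind a (1 / (20000 * u)) j0 (5499 * u) (vk n (30 * j)) *
      (1 - ∑ i ∈ Ico (5499 * u) (19679 * u), 10340 / 10000 * (1 - (i : ℝ) / (19679 * u)) *
        (ej a (1 / (20000 * u)) i (vk n (30 * j)) : ℝ))

/-- the `k ≤ n ^ ε` such that `k (n - k) - 1` has at most two prime factors -/
def ks (ε : ℝ) (n : ℕ) : Finset ℕ :=
  (Icc 1 (n / 2)).filter (fun k => (k : ℝ) ≤ (n : ℝ) ^ ε ∧ ArithmeticFunction.cardFactors (k * (n - k) - 1) ≤ 2)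

/-- (FNA, assume `h10 : StC10P`, `hPT : StPTP`.) Powers of two. PROOF. `κ₀ = min(ε, 10 ^ (-7))`; C10P for `a = 2 ^ s`. Let `n ∈ NN a`, `n ∉ E`. Every summand is at most `1`, so at least
`c a ^ κ₀ / (log a) ^ 3 ≥ a ^ (κ₀ / 2)` of the summands are positive. If the summand of `j` is positive, then `v = vk n (30 j)` (`1 ≤ v ≤ 4 a ^ 2 · 30 a ^ κ₀ ≤ a ^ (2 + 1 / 10000)` for large `a`) is prime
to `30` (`30 ∣ v + 1`), in particular its primes do not divide `a = 2 ^ s`; no prime `7 ≤ p < a ^ θ` divides `v` (`qk`), no prime of a box `j0 ≤ i < 5499 u` divides `v` (`ind`), and no `p ^ 2` divides `v`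
(`Jn`; primes `< a ^ θ` do not divide `v`); so all prime factors of `v` are `≥ a ^ (5499 u ω)` and PTP gives `Ω(v) ≤ 2`. `k = 30 j ≤ 30 a ^ κ₀ ≤ n ^ ε` (`n > a ^ 2`), `2 k ≤ n`. -/
def StFNA : Prop := ∀ ε : ℝ, 0 < ε → ∃ κ : ℝ, 0 < κ ∧ ∃ s₀ : ℕ, ∀ s : ℕ, s₀ ≤ s → ∃ E : Finset ℕ,
  (E.card : ℝ) ≤ ((2 : ℝ) ^ s) ^ (2 - κ) ∧ ∀ n ∈ NN (2 ^ s), n ∉ E → (n : ℝ) ^ κ ≤ ((ks ε n).card : ℝ)

/-- (FNP, assume `hA : StFNA`.) PROOF. The `n ≤ N` with `n > √N` are in the ranges `NN (2 ^ s) = (4 ^ s, 4 ^ (s + 1)]` with `4 ^ s < N`, `4 ^ (s + 1) > √N`, `s ≥ s₀` for large `N`; for the given `κ'` of FNA the sum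
of the `(2 ^ s) ^ (2 - κ')` over `s` with `4 ^ s < N` is at most `C N ^ (1 - κ' / 2)`; add the `√N` numbers `n ≤ √N`; `κ = min(κ' / 4, 1 / 4)`. -/
def StFNP : Prop := ∀ ε : ℝ, 0 < ε → ∃ κ : ℝ, 0 < κ ∧ ∃ N₀ : ℕ, ∀ N : ℕ, N₀ ≤ N →
  (((Icc 1 N).filter (fun n => ((ks ε n).card : ℝ) < (n : ℝ) ^ κ)).card : ℝ) ≤ (N : ℝ) ^ (1 - κ)

end Pool.Agent.Helper93.KP
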